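import Pool.Agent.H94.AB.Defs

set_option autoImplicit false

/-!
# [H94 AB CVB] Chinese remainder theorem for the reductions

The kernels of the `φ s` are maximal ideals (`RingHom.ker_isMaximal_of_surjective`), pairwise different, so pairwise coprime (`Ideal.isCoprime_of_isMaximal`/`IsMaximal.coprime_of_ne`), and the map `O ⧸ I → ∏ s, F s` is bijective (`Ideal.quotientInfRingEquivPiQuotient` and the isomorphisms `O ⧸ ker (φ s) ≃ F s`, `RingHom.quotientKerEquivOfSurjective`).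
* So `O ⧸ I` is finite with `∏ s, Nat.card (F s)` elements.
* The pairs of polynomials of degree `≤ d` over `O ⧸ I` are in bijection with the families of such pairs over the `F s` (coefficients, `Fin (d + 1) → _`); the condition is a product condition: `Nat.card_pi`.
* `cvb_card`: there are `Nat.card (O ⧸ I) ^ (2 * (d + 1))` pairs of polynomials of degree `≤ d`.
-/

namespace Pool.Agent.H94.AB

open Polynomial

private theorem bij {O S : Type} [CommRing O] [Fintype S] (F : S → Type) [∀ s, Field (F s)]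
    (φ : ∀ s, O →+* F s) (hφ : ∀ s, Function.Surjective (φ s))
    (hne : ∀ s t, s ≠ t → RingHom.ker (φ s) ≠ RingHom.ker (φ t)) {I : Ideal O}
    (hI : I = ⨅ s, RingHom.ker (φ s)) (ψ : ∀ s, O ⧸ I →+* F s)
    (hψ : ∀ s, (ψ s).comp (Ideal.Quotient.mk I) = φ s) :
    Function.Bijective (fun (x : O ⧸ I) (s : S) => ψ s x) := by
  have hψ' : ∀ s a, ψ s (Ideal.Quotient.mk I a) = φ s a := fun s a => by
    rw [← hψ s]
    rfl
  constructor
  · intro x y hxy
    obtain ⟨a, rfl⟩ := Ideal.Quotient.mk_surjective x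
    obtain ⟨b, rfl⟩ := Ideal.Quotient.mk_surjective y
    rw [Ideal.Quotient.eq, hI, Ideal.mem_iInf]
    intro s
    have h1 : ψ s (Ideal.Quotient.mk I a) = ψ s (Ideal.Quotient.mk I b) := congrFun hxy s
    rw [hψ', hψ'] at h1
    rw [RingHom.mem_ker, map_sub, h1, sub_self]
  · intro y
    choose a ha using fun s => hφ s (y s)
    obtain ⟨r, hr⟩ := Ideal.exists_forall_sub_mem_ideal (I := fun s => RingHom.ker (φ s)) (by
      intro s t hst
      show IsCoprime (RingHom.ker (φ s)) (RingHom.ker (φ t))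
      have h1 : (RingHom.ker (φ s)).IsMaximal := RingHom.ker_isMaximal_of_surjective (φ s) (hφ s)
      have h2 : (RingHom.ker (φ t)).IsMaximal := RingHom.ker_isMaximal_of_surjective (φ t) (hφ t)
      rw [Ideal.isCoprime_iff_sup_eq]
      exact h1.coprime_of_ne h2 (hne s t hst)) a
    refine ⟨Ideal.Quotient.mk I r, ?_⟩
    funext s
    show ψ s (Ideal.Quotient.mk I r) = y s
    have h1 := hr s
    rw [RingHom.mem_ker, map_sub, sub_eq_zero] at h1
    rw [hψ', h1, ha]

theorem cvb_fin {O S : Type} [CommRing O] [Fintype S] (F : S → Type) [∀ s, Field (F s)]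
    [∀ s, Finite (F s)] (φ : ∀ s, O →+* F s) (hφ : ∀ s, Function.Surjective (φ s))
    (hne : ∀ s t, s ≠ t → RingHom.ker (φ s) ≠ RingHom.ker (φ t)) {I : Ideal O}
    (hI : I = ⨅ s, RingHom.ker (φ s)) :
    Finite (O ⧸ I) ∧ Nat.card (O ⧸ I) = ∏ s, Nat.card (F s) := by
  have h0 : ∀ s, ∀ a ∈ I, φ s a = 0 := by
    intro s a ha
    rw [hI, Ideal.mem_iInf] at ha
    exact ha s
  have h1 := bij F φ hφ hne hI (fun s => Ideal.Quotient.lift I (φ s) (h0 s)) (fun s => by
    ext a
    simp)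
  refine ⟨Finite.of_injective _ h1.1, ?_⟩
  rw [Nat.card_congr (Equiv.ofBijective _ h1), Nat.card_pi]

/-- the polynomial with given coefficients -/
private noncomputable def bpol {R : Type} [CommRing R] {d : ℕ} (x : Fin (d + 1) → R) : R[X] :=
  ∑ i : Fin (d + 1), monomial (i : ℕ) (x i)

private theorem bpol_coeff {R : Type} [CommRing R] {d : ℕ} (x : Fin (d + 1) → R) (j : Fin (d + 1)) :
    (bpol x).coeff (j : ℕ) = x j := by
  unfold bpol
  rw [finsetSum_coeff]
  rw [Finset.sum_eq_single j]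
  · rw [coeff_monomial, if_pos rfl]
  · intro i _ hi
    rw [coeff_monomial, if_neg]
    intro h
    exact hi (Fin.ext h)
  · intro h
    exact absurd (Finset.mem_univ j) h

private theorem bpol_deg {R : Type} [CommRing R] {d : ℕ} (x : Fin (d + 1) → R) :
    (bpol x).natDegree ≤ d := by
  unfold bpol
  refine natDegree_sum_le_of_forall_le _ _ (fun i _ => ?_)
  exact (natDegree_monomial_le _).trans (Nat.lt_succ_iff.mp i.2)

private theorem bpol_self {R : Type} [CommRing R] {d : ℕ} {f : R[X]} (hf : f.natDegree ≤ d) :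
    bpol (fun i : Fin (d + 1) => f.coeff (i : ℕ)) = f := by
  ext j
  by_cases hj : j < d + 1
  · exact bpol_coeff (fun i : Fin (d + 1) => f.coeff (i : ℕ)) ⟨j, hj⟩
  · rw [coeff_eq_zero_of_natDegree_lt (lt_of_le_of_lt hf (by omega)),
      coeff_eq_zero_of_natDegree_lt (lt_of_le_of_lt (bpol_deg _) (by omega))]

private theorem bpol_map {R R' : Type} [CommRing R] [CommRing R'] (φ : R →+* R') {d : ℕ}
    (x : Fin (d + 1) → R) : (bpol x).map φ = bpol (fun i => φ (x i)) := by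
  unfold bpol
  rw [Polynomial.map_sum]
  refine Finset.sum_congr rfl fun i _ => ?_
  rw [map_monomial]

private theorem bgen {R : Type} [CommRing R] (d : ℕ) (P : R[X] → R[X] → Prop) :
    Nat.card {q : R[X] × R[X] // q.1.natDegree ≤ d ∧ q.2.natDegree ≤ d ∧ P q.1 q.2} =
      Nat.card {f : Fin (d + 1) ⊕ Fin (d + 1) → R //
        P (bpol fun i => f (Sum.inl i)) (bpol fun i => f (Sum.inr i))} := by
  refine Nat.card_congr ⟨fun q => ⟨Sum.elim (fun i => q.1.1.coeff (i : ℕ))
      (fun i => q.1.2.coeff (i : ℕ)), ?_⟩,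
    fun f => ⟨(bpol fun i => f.1 (Sum.inl i), bpol fun i => f.1 (Sum.inr i)), bpol_deg _, bpol_deg _,
      f.2⟩, ?_, ?_⟩
  · obtain ⟨⟨a, b⟩, h1, h2, h3⟩ := q
    show P (bpol fun i : Fin (d + 1) => a.coeff (i : ℕ)) (bpol fun i : Fin (d + 1) => b.coeff (i : ℕ))
    rw [bpol_self h1, bpol_self h2]
    exact h3
  · rintro ⟨⟨a, b⟩, h1, h2, h3⟩
    apply Subtype.ext
    show (bpol fun i : Fin (d + 1) => a.coeff (i : ℕ), bpol fun i : Fin (d + 1) => b.coeff (i : ℕ)) =
      (a, b)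
    rw [bpol_self h1, bpol_self h2]
  · rintro ⟨f, hf⟩
    apply Subtype.ext
    funext i
    cases i with
    | inl i => exact bpol_coeff (fun i => f (Sum.inl i)) i
    | inr i => exact bpol_coeff (fun i => f (Sum.inr i)) i

theorem cvb_card {Q : Type} [CommRing Q] [Finite Q] (d : ℕ) :
    {g : Q[X] × Q[X] | g.1.natDegree ≤ d ∧ g.2.natDegree ≤ d}.Finite ∧
      Nat.card {g : Q[X] × Q[X] // g.1.natDegree ≤ d ∧ g.2.natDegree ≤ d} =
        Nat.card Q ^ (2 * (d + 1)) := by
  have h1 := bgen (R := Q) d (fun _ _ => True)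
  have h2 : Nat.card {g : Q[X] × Q[X] // g.1.natDegree ≤ d ∧ g.2.natDegree ≤ d} =
      Nat.card {g : Q[X] × Q[X] // g.1.natDegree ≤ d ∧ g.2.natDegree ≤ d ∧ True} :=
    Nat.card_congr (Equiv.subtypeEquivRight fun q =>
      ⟨fun h => ⟨h.1, h.2, trivial⟩, fun h => ⟨h.1, h.2.1⟩⟩)
  have h3 : Nat.card {f : Fin (d + 1) ⊕ Fin (d + 1) → Q // True} = Nat.card Q ^ (2 * (d + 1)) := by
    rw [Nat.card_congr (Equiv.subtypeUnivEquiv fun _ => trivial), Nat.card_fun,
      Nat.card_eq_fintype_card (α := Fin (d + 1) ⊕ Fin (d + 1)), Fintype.card_sum, Fintype.card_fin]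
    congr 1
    ring
  have h4 : Nat.card {g : Q[X] × Q[X] // g.1.natDegree ≤ d ∧ g.2.natDegree ≤ d} =
      Nat.card Q ^ (2 * (d + 1)) := by
    rw [h2, h1, h3]
  refine ⟨?_, h4⟩
  have h5 : Nat.card {g : Q[X] × Q[X] // g.1.natDegree ≤ d ∧ g.2.natDegree ≤ d} ≠ 0 := by
    rw [h4]
    have : 0 < Nat.card Q := Nat.card_pos
    positivity
  exact Set.finite_coe_iff.mp (Nat.finite_of_card_ne_zero h5)

theorem cvb {O S : Type} [CommRing O] [Fintype S] (F : S → Type) [∀ s, Field (F s)]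
    [∀ s, Finite (F s)] (φ : ∀ s, O →+* F s) (hφ : ∀ s, Function.Surjective (φ s))
    (hne : ∀ s t, s ≠ t → RingHom.ker (φ s) ≠ RingHom.ker (φ t)) {I : Ideal O}
    (hI : I = ⨅ s, RingHom.ker (φ s)) (ψ : ∀ s, O ⧸ I →+* F s)
    (hψ : ∀ s, (ψ s).comp (Ideal.Quotient.mk I) = φ s) (d : ℕ)
    (Bad : ∀ s, (F s)[X] → (F s)[X] → Prop) :
    Nat.card {g : (O ⧸ I)[X] × (O ⧸ I)[X] // g.1.natDegree ≤ d ∧ g.2.natDegree ≤ d ∧
      ∀ s, Bad s (g.1.map (ψ s)) (g.2.map (ψ s))} =
        ∏ s, Nat.card {g : (F s)[X] × (F s)[X] // g.1.natDegree ≤ d ∧ g.2.natDegree ≤ d ∧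
          Bad s g.1 g.2} := by
  have hb := bij F φ hφ hne hI ψ hψ
  rw [bgen (R := O ⧸ I) d (fun a b => ∀ s, Bad s (a.map (ψ s)) (b.map (ψ s)))]
  have h1 : ∀ s, Nat.card {g : (F s)[X] × (F s)[X] // g.1.natDegree ≤ d ∧ g.2.natDegree ≤ d ∧
          Bad s g.1 g.2} = Nat.card {f : Fin (d + 1) ⊕ Fin (d + 1) → F s //
        Bad s (bpol fun i => f (Sum.inl i)) (bpol fun i => f (Sum.inr i))} :=
    fun s => bgen (R := F s) d (Bad s)
  rw [Finset.prod_congr rfl fun s _ => h1 s, ← Nat.card_pi]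
  refine Nat.card_congr (Equiv.ofBijective (fun f s => ⟨fun i => ψ s (f.1 i), ?_⟩) ⟨?_, ?_⟩)
  · have h2 := f.2 s
    rw [bpol_map, bpol_map] at h2
    exact h2
  · intro f f' hff
    apply Subtype.ext
    funext i
    apply hb.1
    funext s
    exact congrFun (congrArg Subtype.val (congrFun hff s)) i
  · intro y
    choose x hx using fun i => hb.2 (fun s => (y s).1 i)
    have hx' : ∀ s, (fun i => ψ s (x i)) = (y s).1 := fun s => funext fun i => congrFun (hx i) s
    refine ⟨⟨x, fun s => ?_⟩, ?_⟩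
    · rw [bpol_map, bpol_map]
      have h2 := (y s).2
      rw [← hx' s] at h2
      exact h2
    · funext s
      exact Subtype.ext (hx' s)

end Pool.Agent.H94.AB
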