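import Pool.Agent.H94.AB.CVA
import Pool.Agent.H94.AB.CVB
import Pool.Agent.H94.AA.LAW2

set_option autoImplicit false

/-!
# [H94 AB CN3] Almost all pairs over `O` have a good reduction

`ε > 1`: trivial (`I = ⊤`: the left side is not positive; `V.card ^ _ ≥ 0`).  Let `ε ≤ 1`.  `law2u` gives `c`, `Q`.  Choose `s` with `(1 - c) ^ s ≤ ε / 2` and, one after the other, `s` surjections `φ_1, …, φ_s` onto fields `F_l` with `P`, `Nat.card F_l ≥ Q` and `Nat.card F_l > Nat.card F_{l - 1}` (`h` with `B = max Q (Nat.card F_{l-1})`): the kernels are different since the quotients have different cardinalities.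
`I = ⨅ ker φ_l`, `n₀` the maximum of the `n₀` of `law2u` for the `F_l` (`2 ≠ 0` by `h`).
Let `n ≥ n₀`, `d = 2 n + 1`, `q = Nat.card (O ⧸ I)`, `T = q ^ (2 (d + 1))` pairs over `O ⧸ I` of degree `≤ d` (`cvb_card`); by `cvb` with `Bad l = ¬ Gd d` at most `∏ (card F_l ^ (2 (d + 1)) (1 - c)) ≤ T (1 - c) ^ s ≤ T ε / 2` of them are bad at all `l` (`Gd` pairs have degree `d`; `law2u`: at least `c (card F_l) ^ (2 (d + 1))` are good).  So at least `T (1 - ε / 2)` are good for some `l`.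
`cva` with `m = (1 - ε / (8 (n + 1))) V.card / q`: at least `m ^ (2 (d + 1)) T (1 - ε / 2) = ((1 - ε / (8 (n + 1))) V.card) ^ (4 (n + 1)) (1 - ε / 2)` pairs with coefficients in `V` have a good reduction, and `(1 - ε / (8 (n + 1))) ^ (4 (n + 1)) ≥ 1 - ε / 2` (Bernoulli `one_add_mul_le_pow`), `(1 - ε / 2) ^ 2 ≥ 1 - ε`.
(Compare `cnt` in `H94/AA/CNT.lean`.)  The reduction `φ_l` kills `I`; `A.map φ_l = (A.map (mk I)).map ψ_l`.
-/

namespace Pool.Agent.H94.AB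

open Polynomial

/-- a finite reduction -/
private structure Rdn (O : Type) [CommRing O] (P : ∀ (F : Type) [Field F], (O →+* F) → Prop) where
  F : Type
  fld : Field F
  fin : Finite F
  φ : O →+* F
  surj : Function.Surjective φ
  two : (2 : F) ≠ 0
  pp : P F φ

open Classical in
/-- few pairs over a finite field are not good -/
private theorem fac {F : Type} [Field F] [Finite F] {c : ℝ} {d : ℕ}
    (h : c * (Nat.card F : ℝ) ^ (2 * (d + 1)) ≤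
      (Nat.card {g : F[X] × F[X] // H94.AA.Gd d g.1 g.2} : ℝ)) :
    (Nat.card {g : F[X] × F[X] // g.1.natDegree ≤ d ∧ g.2.natDegree ≤ d ∧
      ¬ H94.AA.Gd d g.1 g.2} : ℝ) ≤ (1 - c) * (Nat.card F : ℝ) ^ (2 * (d + 1)) := by
  obtain ⟨h2, h1⟩ := cvb_card (Q := F) d
  obtain ⟨A, hA⟩ : ∃ A : Set (F[X] × F[X]), A = {g | g.1.natDegree ≤ d ∧
    g.2.natDegree ≤ d ∧ ¬ H94.AA.Gd d g.1 g.2} := ⟨_, rfl⟩
  obtain ⟨B, hB⟩ : ∃ B : Set (F[X] × F[X]), B = {g | H94.AA.Gd d g.1 g.2} := ⟨_, rfl⟩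
  obtain ⟨T, hT⟩ : ∃ T : Set (F[X] × F[X]), T = {g | g.1.natDegree ≤ d ∧
    g.2.natDegree ≤ d} := ⟨_, rfl⟩
  have hTf : T.Finite := by rw [hT]; exact h2
  have hAT : A ⊆ T := by
    rw [hA, hT]
    intro g hg
    exact ⟨hg.1, hg.2.1⟩
  have hBT : B ⊆ T := by
    rw [hB, hT]
    intro g hg
    have hg' : H94.AA.Gd d g.1 g.2 := hg
    exact ⟨hg'.dA.le, hg'.dB.le⟩
  have hdis : Disjoint A B := by
    rw [Set.disjoint_left, hA, hB]
    intro g hg hg'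
    exact hg.2.2 hg'
  have h3 : A.ncard + B.ncard ≤ T.ncard := by
    rw [← Set.ncard_union_eq hdis (hTf.subset hAT) (hTf.subset hBT)]
    exact Set.ncard_le_ncard (Set.union_subset hAT hBT) hTf
  have h4 : T.ncard = Nat.card F ^ (2 * (d + 1)) := by
    rw [← h1, hT]; rfl
  have h5 : Nat.card {g : F[X] × F[X] // g.1.natDegree ≤ d ∧ g.2.natDegree ≤ d ∧
      ¬ H94.AA.Gd d g.1 g.2} = A.ncard := by rw [hA]; rfl
  have h6 : Nat.card {g : F[X] × F[X] // H94.AA.Gd d g.1 g.2} = B.ncard := by rw [hB]; rfl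
  rw [h6] at h
  rw [h5, sub_mul, one_mul]
  rw [h4] at h3
  have h7 : (A.ncard : ℝ) + (B.ncard : ℝ) ≤ (Nat.card F : ℝ) ^ (2 * (d + 1)) := by exact_mod_cast h3
  linarith

/-- the good pairs over the quotient -/
private theorem mainT {O S : Type} [CommRing O] [Fintype S] (F : S → Type) [∀ s, Field (F s)]
    [∀ s, Finite (F s)] (φ : ∀ s, O →+* F s) (hφ : ∀ s, Function.Surjective (φ s))
    (hne : ∀ s t, s ≠ t → RingHom.ker (φ s) ≠ RingHom.ker (φ t)) {I : Ideal O}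
    (hI : I = ⨅ s, RingHom.ker (φ s)) (ψ : ∀ s, O ⧸ I →+* F s)
    (hψ : ∀ s, (ψ s).comp (Ideal.Quotient.mk I) = φ s) (d : ℕ)
    (Good : ∀ s, (F s)[X] → (F s)[X] → Prop) {c ε : ℝ}
    (hc : ∀ s, (Nat.card {g : (F s)[X] × (F s)[X] // g.1.natDegree ≤ d ∧ g.2.natDegree ≤ d ∧
      ¬ Good s g.1 g.2} : ℝ) ≤ (1 - c) * (Nat.card (F s) : ℝ) ^ (2 * (d + 1)))
    (hs : (1 - c) ^ Fintype.card S ≤ ε / 2) :
    (1 - ε / 2) * (Nat.card (O ⧸ I) : ℝ) ^ (2 * (d + 1)) ≤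
      (Nat.card {g : (O ⧸ I)[X] × (O ⧸ I)[X] // g.1.natDegree ≤ d ∧ g.2.natDegree ≤ d ∧
        ∃ s, Good s (g.1.map (ψ s)) (g.2.map (ψ s))} : ℝ) := by
  obtain ⟨hfin, hcard⟩ := cvb_fin F φ hφ hne hI
  obtain ⟨h2, h1⟩ := cvb_card (Q := O ⧸ I) d
  obtain ⟨A, hA⟩ : ∃ A : Set ((O ⧸ I)[X] × (O ⧸ I)[X]), A = {g | g.1.natDegree ≤ d ∧
    g.2.natDegree ≤ d ∧ ∀ s, ¬ Good s (g.1.map (ψ s)) (g.2.map (ψ s))} := ⟨_, rfl⟩
  obtain ⟨B, hB⟩ : ∃ B : Set ((O ⧸ I)[X] × (O ⧸ I)[X]), B = {g | g.1.natDegree ≤ d ∧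
    g.2.natDegree ≤ d ∧ ∃ s, Good s (g.1.map (ψ s)) (g.2.map (ψ s))} := ⟨_, rfl⟩
  obtain ⟨T, hT⟩ : ∃ T : Set ((O ⧸ I)[X] × (O ⧸ I)[X]), T = {g | g.1.natDegree ≤ d ∧
    g.2.natDegree ≤ d} := ⟨_, rfl⟩
  have hTf : T.Finite := by rw [hT]; exact h2
  have hAT : A ⊆ T := by
    rw [hA, hT]
    intro g hg
    exact ⟨hg.1, hg.2.1⟩
  have hBT : B ⊆ T := by
    rw [hB, hT]
    intro g hg
    exact ⟨hg.1, hg.2.1⟩
  have hTAB : T ⊆ A ∪ B := by
    intro g hg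
    rw [hT] at hg
    by_cases h : ∃ s, Good s (g.1.map (ψ s)) (g.2.map (ψ s))
    · right
      rw [hB]
      exact ⟨hg.1, hg.2, h⟩
    · left
      rw [hA]
      exact ⟨hg.1, hg.2, fun s hs => h ⟨s, hs⟩⟩
  have h3 : T.ncard ≤ A.ncard + B.ncard :=
    (Set.ncard_le_ncard hTAB ((hTf.subset hAT).union (hTf.subset hBT))).trans
      (Set.ncard_union_le _ _)
  have h4 : T.ncard = Nat.card (O ⧸ I) ^ (2 * (d + 1)) := by
    rw [← h1, hT]; rfl
  have h5 : (A.ncard : ℝ) ≤ (Nat.card (O ⧸ I) : ℝ) ^ (2 * (d + 1)) * (ε / 2) := by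
    have h6 : A.ncard = ∏ s, Nat.card {g : (F s)[X] × (F s)[X] // g.1.natDegree ≤ d ∧
        g.2.natDegree ≤ d ∧ ¬ Good s g.1 g.2} := by
      rw [← cvb F φ hφ hne hI ψ hψ d (fun s a b => ¬ Good s a b), hA]
      rfl
    rw [h6]
    push_cast
    refine (Finset.prod_le_prod (fun s _ => Nat.cast_nonneg _) fun s _ => hc s).trans ?_
    rw [Finset.prod_mul_distrib, Finset.prod_const, Finset.card_univ, Finset.prod_pow, hcard]
    push_cast
    rw [mul_comm]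
    refine mul_le_mul_of_nonneg_left hs ?_
    exact pow_nonneg (Finset.prod_nonneg fun s _ => Nat.cast_nonneg _) _
  have h7 : (Nat.card (O ⧸ I) : ℝ) ^ (2 * (d + 1)) ≤ (A.ncard : ℝ) + (B.ncard : ℝ) := by
    rw [h4] at h3
    exact_mod_cast h3
  have h8 : Nat.card {g : (O ⧸ I)[X] × (O ⧸ I)[X] // g.1.natDegree ≤ d ∧ g.2.natDegree ≤ d ∧
        ∃ s, Good s (g.1.map (ψ s)) (g.2.map (ψ s))} = B.ncard := by rw [hB]; rfl
  rw [h8]
  linarith

/-- Bernoulli -/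
private theorem bern {ε : ℝ} (hε : 0 < ε) (hε1 : ε ≤ 1) (n : ℕ) {v q : ℝ} (hv : 0 ≤ v) (hq : 0 < q) :
    (1 - ε) * v ^ (2 * (2 * n + 2)) ≤ ((1 - ε / (8 * (n + 1))) * v / q) ^ (2 * (2 * n + 2)) *
      ((1 - ε / 2) * q ^ (2 * (2 * n + 2))) := by
  have hn : (0 : ℝ) ≤ (n : ℝ) := Nat.cast_nonneg n
  have h0 : ε / (8 * ((n : ℝ) + 1)) ≤ 1 := by
    rw [div_le_one (by positivity)]
    nlinarith
  have h1 : (1 : ℝ) - ε / 2 ≤ (1 - ε / (8 * (n + 1))) ^ (2 * (2 * n + 2)) := by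
    have h7 := one_add_mul_le_pow (a := -(ε / (8 * ((n : ℝ) + 1)))) (by linarith) (2 * (2 * n + 2))
    rw [← sub_eq_add_neg] at h7
    refine le_trans (le_of_eq ?_) h7
    push_cast
    field_simp
    ring
  have h2 : ((1 - ε / (8 * (n + 1))) * v / q) ^ (2 * (2 * n + 2)) *
      ((1 - ε / 2) * q ^ (2 * (2 * n + 2))) =
      (1 - ε / (8 * (n + 1))) ^ (2 * (2 * n + 2)) * (1 - ε / 2) * v ^ (2 * (2 * n + 2)) := by
    rw [div_pow, mul_pow]
    have : q ^ (2 * (2 * n + 2)) ≠ 0 := by positivity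
    field_simp
  rw [h2]
  refine mul_le_mul_of_nonneg_right ?_ (by positivity)
  have h3 := mul_le_mul_of_nonneg_right h1 (show (0 : ℝ) ≤ 1 - ε / 2 by linarith)
  refine le_trans ?_ h3
  nlinarith [sq_nonneg ε]

open Classical in
theorem cn3 (O : Type) [CommRing O] (P : ∀ (F : Type) [Field F], (O →+* F) → Prop)
    (h : ∀ B : ℕ, ∃ (F : Type) (_ : Field F) (_ : Finite F) (φ : O →+* F),
      Function.Surjective φ ∧ B < Nat.card F ∧ (2 : F) ≠ 0 ∧ P F φ) (ε : ℝ) (hε : 0 < ε) :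
    ∃ (I : Ideal O) (n₀ : ℕ), Finite (O ⧸ I) ∧ ∀ n : ℕ, n₀ ≤ n → ∀ V : Finset O,
      (∀ c : O ⧸ I, (1 - ε / (8 * (n + 1))) * (V.card : ℝ) ≤ (Nat.card (O ⧸ I) : ℝ) *
        (Nat.card {v : O // v ∈ V ∧ Ideal.Quotient.mk I v = c} : ℝ)) →
      (1 - ε) * (V.card : ℝ) ^ (2 * (2 * n + 2)) ≤
        (Nat.card {q : O[X] × O[X] // Bv V (2 * n + 1) q.1 ∧ Bv V (2 * n + 1) q.2 ∧
          ∃ (F : Type) (_ : Field F) (_ : Finite F) (φ : O →+* F), Function.Surjective φ ∧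
            (∀ x ∈ I, φ x = 0) ∧ (2 : F) ≠ 0 ∧ P F φ ∧
              H94.AA.Gd (2 * n + 1) (q.1.map φ) (q.2.map φ)} : ℝ) := by
  rcases lt_or_ge 1 ε with hε1 | hε1
  · refine ⟨⊤, 0, ?_, fun n _ V _ => ?_⟩
    · have : Subsingleton (O ⧸ (⊤ : Ideal O)) := Ideal.Quotient.subsingleton_iff.2 rfl
      infer_instance
    · refine le_trans ?_ (Nat.cast_nonneg _)
      exact mul_nonpos_of_nonpos_of_nonneg (by linarith) (by positivity)
  obtain ⟨c, hc, hc1, Q, hQ⟩ := H94.AA.law2u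
  obtain ⟨s, hs⟩ := exists_pow_lt_of_lt_one (half_pos hε) (show 1 - c < 1 by linarith)
  -- the sequence of the fields
  have h' : ∀ B : ℕ, ∃ t : Rdn O P, B < Nat.card t.F := by
    intro B
    obtain ⟨F, i1, i2, φ, h1, h2, h3, h4⟩ := h B
    exact ⟨⟨F, i1, i2, φ, h1, h3, h4⟩, h2⟩
  choose g hg using h'
  let a : ℕ → Rdn O P := fun l => Nat.rec (g Q) (fun _ t => g (Nat.card t.F)) l
  have ha : ∀ l, Nat.card (a l).F < Nat.card (a (l + 1)).F := fun l => hg (Nat.card (a l).F)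
  have ha0 : Q < Nat.card (a 0).F := hg Q
  have hmono : StrictMono fun l => Nat.card (a l).F := strictMono_nat_of_lt_succ ha
  have haQ : ∀ l, Q ≤ Nat.card (a l).F := fun l =>
    ha0.le.trans (hmono.monotone (Nat.zero_le l))
  let F : Fin s → Type := fun l => (a l).F
  letI iF : ∀ l, Field (F l) := fun l => (a l).fld
  haveI fF : ∀ l, Finite (F l) := fun l => (a l).fin
  let φ : ∀ l, O →+* F l := fun l => (a l).φ
  have hφ : ∀ l, Function.Surjective (φ l) := fun l => (a l).surj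
  have hne : ∀ l t, l ≠ t → RingHom.ker (φ l) ≠ RingHom.ker (φ t) := by
    intro l t hlt heq
    have h1 := Nat.card_congr (RingHom.quotientKerEquivOfSurjective (hφ l)).toEquiv
    have h2 := Nat.card_congr (RingHom.quotientKerEquivOfSurjective (hφ t)).toEquiv
    rw [heq] at h1
    have h3 : Nat.card (F l) = Nat.card (F t) := h1.symm.trans h2
    exact hlt (Fin.ext (hmono.injective h3))
  obtain ⟨I, hI⟩ : ∃ I : Ideal O, I = ⨅ l, RingHom.ker (φ l) := ⟨_, rfl⟩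
  have h0 : ∀ l, ∀ x ∈ I, φ l x = 0 := by
    intro l x hx
    rw [hI, Ideal.mem_iInf] at hx
    exact hx l
  let ψ : ∀ l, O ⧸ I →+* F l := fun l => Ideal.Quotient.lift I (φ l) (h0 l)
  have hψ : ∀ l, (ψ l).comp (Ideal.Quotient.mk I) = φ l := fun l => by
    ext x
    simp [ψ]
  have hn0 : ∀ l : Fin s, ∃ n₀ : ℕ, ∀ n : ℕ, n₀ ≤ n →
      c * (Nat.card (F l) : ℝ) ^ (2 * (2 * n + 2)) ≤
        (Nat.card {p : (F l)[X] × (F l)[X] // H94.AA.Gd (2 * n + 1) p.1 p.2} : ℝ) :=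
    fun l => hQ (F l) (a l).two (haQ l)
  choose f hf using hn0
  have hfin := (cvb_fin F φ hφ hne hI).1
  refine ⟨I, Finset.univ.sup f, hfin, fun n hn V hV => ?_⟩
  have hT := mainT F φ hφ hne hI ψ hψ (2 * n + 1) (fun l A B => H94.AA.Gd (2 * n + 1) A B)
    (c := c) (ε := ε) (fun l => fac (hf l n ((Finset.le_sup (Finset.mem_univ l)).trans hn))) (by
      rw [Fintype.card_fin]
      exact hs.le)
  have hq : 0 < Nat.card (O ⧸ I) := Nat.card_pos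
  have hqr : (0 : ℝ) < (Nat.card (O ⧸ I) : ℝ) := by exact_mod_cast hq
  have hnn : (0 : ℝ) ≤ (n : ℝ) := Nat.cast_nonneg n
  have hle : ε / (8 * ((n : ℝ) + 1)) ≤ 1 := by
    rw [div_le_one (by positivity)]
    nlinarith
  have hm : 0 ≤ (1 - ε / (8 * ((n : ℝ) + 1))) * (V.card : ℝ) / (Nat.card (O ⧸ I) : ℝ) :=
    div_nonneg (mul_nonneg (by linarith) (Nat.cast_nonneg _)) hqr.le
  have hcva := cva I V (2 * n + 1) hm (fun x => by
    rw [div_le_iff₀ hqr, mul_comm (Nat.card {v : O // v ∈ V ∧ Ideal.Quotient.mk I v = x} : ℝ)]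
    exact hV x) (fun A B => ∃ l, H94.AA.Gd (2 * n + 1) (A.map (ψ l)) (B.map (ψ l)))
  have hfinal : Nat.card {q : O[X] × O[X] // Bv V (2 * n + 1) q.1 ∧ Bv V (2 * n + 1) q.2 ∧
      ∃ l, H94.AA.Gd (2 * n + 1) ((q.1.map (Ideal.Quotient.mk I)).map (ψ l))
        ((q.2.map (Ideal.Quotient.mk I)).map (ψ l))} ≤
      Nat.card {q : O[X] × O[X] // Bv V (2 * n + 1) q.1 ∧ Bv V (2 * n + 1) q.2 ∧
          ∃ (F : Type) (_ : Field F) (_ : Finite F) (φ : O →+* F), Function.Surjective φ ∧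
            (∀ x ∈ I, φ x = 0) ∧ (2 : F) ≠ 0 ∧ P F φ ∧
              H94.AA.Gd (2 * n + 1) (q.1.map φ) (q.2.map φ)} := by
    refine Set.ncard_le_ncard (s := {q : O[X] × O[X] | Bv V (2 * n + 1) q.1 ∧
      Bv V (2 * n + 1) q.2 ∧
      ∃ l, H94.AA.Gd (2 * n + 1) ((q.1.map (Ideal.Quotient.mk I)).map (ψ l))
        ((q.2.map (Ideal.Quotient.mk I)).map (ψ l))})
      (t := {q : O[X] × O[X] | Bv V (2 * n + 1) q.1 ∧ Bv V (2 * n + 1) q.2 ∧
          ∃ (F : Type) (_ : Field F) (_ : Finite F) (φ : O →+* F), Function.Surjective φ ∧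
            (∀ x ∈ I, φ x = 0) ∧ (2 : F) ≠ 0 ∧ P F φ ∧
              H94.AA.Gd (2 * n + 1) (q.1.map φ) (q.2.map φ)}) ?_ ?_
    · rintro q ⟨h1, h2, l, h3⟩
      refine ⟨h1, h2, F l, iF l, fF l, φ l, hφ l, h0 l, (a l).two, (a l).pp, ?_⟩
      rw [map_map, map_map, hψ l] at h3
      exact h3
    · exact (cva_fin V (2 * n + 1)).subset fun q hq => ⟨hq.1, hq.2.1⟩
  have hfinal' : (Nat.card {q : O[X] × O[X] // Bv V (2 * n + 1) q.1 ∧ Bv V (2 * n + 1) q.2 ∧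
      ∃ l, H94.AA.Gd (2 * n + 1) ((q.1.map (Ideal.Quotient.mk I)).map (ψ l))
        ((q.2.map (Ideal.Quotient.mk I)).map (ψ l))} : ℝ) ≤ _ := Nat.cast_le.2 hfinal
  refine le_trans ?_ (hcva.trans hfinal')
  refine (bern hε hε1 n (Nat.cast_nonneg V.card) hqr).trans ?_
  exact mul_le_mul_of_nonneg_left hT (pow_nonneg hm _)

end Pool.Agent.H94.AB
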