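import Pool.Agent.H94.AB.Defs

set_option autoImplicit false

/-!
# [H94 AB CVA] Pairs of polynomials with coefficients in a finite set and their reductions

The polynomials of degree `≤ d` over `O` with coefficients in `V` are in bijection with `Fin (d + 1) → V`, the ones over `O ⧸ I` with `Fin (d + 1) → O ⧸ I`, compatible with the reduction (see `H94/AA/BOX.lean` for `ℤ`).
* `cva_card`, `cva_fin`: `V.card ^ (2 * (d + 1))` pairs.
* `cva`: a pair of polynomials over `O ⧸ I` is the reduction of `∏ (number of the elements of V in the class)` pairs with coefficients in `V`, the product over its `2 (d + 1)` coefficients, so of at least `m ^ (2 (d + 1))`; the fibres are disjoint (`Nat.card` of a sigma type, or sums over the finite type of the pairs; `Nat.card_pi`, `Finset.prod_le_prod`).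
-/

namespace Pool.Agent.H94.AB

open Polynomial

/-- the polynomial with given coefficients -/
private noncomputable def bpol {R : Type} [CommRing R] {d : ℕ} (x : Fin (d + 1) → R) : R[X] :=
  ∑ i : Fin (d + 1), monomial (i : ℕ) (x i)

private theorem bpol_coeff {R : Type} [CommRing R] {d : ℕ} (x : Fin (d + 1) → R) (j : Fin (d + 1)) :
    (bpol x).coeff (j : ℕ) = x j := by
  unfold bpol
  rw [finsetSum_coeff]
  rw [Finset.sum_eq_single j]
  · rw [coeff_monomial, if_pos rfl]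
  · intro i _ hi
    rw [coeff_monomial, if_neg]
    intro h
    exact hi (Fin.ext h)
  · intro h
    exact absurd (Finset.mem_univ j) h

private theorem bpol_deg {R : Type} [CommRing R] {d : ℕ} (x : Fin (d + 1) → R) :
    (bpol x).natDegree ≤ d := by
  unfold bpol
  refine natDegree_sum_le_of_forall_le _ _ (fun i _ => ?_)
  exact (natDegree_monomial_le _).trans (Nat.lt_succ_iff.mp i.2)

private theorem bpol_self {R : Type} [CommRing R] {d : ℕ} {f : R[X]} (hf : f.natDegree ≤ d) :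
    bpol (fun i : Fin (d + 1) => f.coeff (i : ℕ)) = f := by
  ext j
  by_cases hj : j < d + 1
  · exact bpol_coeff (fun i : Fin (d + 1) => f.coeff (i : ℕ)) ⟨j, hj⟩
  · rw [coeff_eq_zero_of_natDegree_lt (lt_of_le_of_lt hf (by omega)),
      coeff_eq_zero_of_natDegree_lt (lt_of_le_of_lt (bpol_deg _) (by omega))]

private theorem bpol_map {R R' : Type} [CommRing R] [CommRing R'] (φ : R →+* R') {d : ℕ}
    (x : Fin (d + 1) → R) : (bpol x).map φ = bpol (fun i => φ (x i)) := by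
  unfold bpol
  rw [Polynomial.map_sum]
  refine Finset.sum_congr rfl fun i _ => ?_
  rw [map_monomial]

private theorem bgen {R : Type} [CommRing R] (d : ℕ) (P : R[X] → R[X] → Prop) :
    Nat.card {q : R[X] × R[X] // q.1.natDegree ≤ d ∧ q.2.natDegree ≤ d ∧ P q.1 q.2} =
      Nat.card {f : Fin (d + 1) ⊕ Fin (d + 1) → R //
        P (bpol fun i => f (Sum.inl i)) (bpol fun i => f (Sum.inr i))} := by
  refine Nat.card_congr ⟨fun q => ⟨Sum.elim (fun i => q.1.1.coeff (i : ℕ))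
      (fun i => q.1.2.coeff (i : ℕ)), ?_⟩,
    fun f => ⟨(bpol fun i => f.1 (Sum.inl i), bpol fun i => f.1 (Sum.inr i)), bpol_deg _, bpol_deg _,
      f.2⟩, ?_, ?_⟩
  · obtain ⟨⟨a, b⟩, h1, h2, h3⟩ := q
    show P (bpol fun i : Fin (d + 1) => a.coeff (i : ℕ)) (bpol fun i : Fin (d + 1) => b.coeff (i : ℕ))
    rw [bpol_self h1, bpol_self h2]
    exact h3
  · rintro ⟨⟨a, b⟩, h1, h2, h3⟩
    apply Subtype.ext
    show (bpol fun i : Fin (d + 1) => a.coeff (i : ℕ), bpol fun i : Fin (d + 1) => b.coeff (i : ℕ)) =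
      (a, b)
    rw [bpol_self h1, bpol_self h2]
  · rintro ⟨f, hf⟩
    apply Subtype.ext
    funext i
    cases i with
    | inl i => exact bpol_coeff (fun i => f (Sum.inl i)) i
    | inr i => exact bpol_coeff (fun i => f (Sum.inr i)) i

private theorem bv_iff {O : Type} [CommRing O] (V : Finset O) {d : ℕ} (x : Fin (d + 1) → O) :
    Bv V d (bpol x) ↔ ∀ i, x i ∈ V := by
  constructor
  · rintro ⟨-, h⟩ i
    have h1 := h (i : ℕ) (Nat.lt_succ_iff.mp i.2)
    rw [bpol_coeff] at h1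
    exact h1
  · intro h
    refine ⟨bpol_deg x, fun i hi => ?_⟩
    have h1 := bpol_coeff x ⟨i, Nat.lt_succ_of_le hi⟩
    have h2 : (bpol x).coeff i = x ⟨i, Nat.lt_succ_of_le hi⟩ := h1
    rw [h2]
    exact h _

theorem cva_fin {O : Type} [CommRing O] (V : Finset O) (d : ℕ) :
    {q : O[X] × O[X] | Bv V d q.1 ∧ Bv V d q.2}.Finite := by
  refine (Set.finite_range (fun f : Fin (d + 1) ⊕ Fin (d + 1) → V =>
    (bpol fun i => ((f (Sum.inl i) : V) : O), bpol fun i => ((f (Sum.inr i) : V) : O)))).subset ?_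
  rintro ⟨a, b⟩ ⟨ha, hb⟩
  refine ⟨Sum.elim (fun i => ⟨a.coeff (i : ℕ), ha.2 _ (Nat.lt_succ_iff.mp i.2)⟩)
    (fun i => ⟨b.coeff (i : ℕ), hb.2 _ (Nat.lt_succ_iff.mp i.2)⟩), ?_⟩
  show (bpol fun i : Fin (d + 1) => a.coeff (i : ℕ), bpol fun i : Fin (d + 1) => b.coeff (i : ℕ)) =
      (a, b)
  rw [bpol_self ha.1, bpol_self hb.1]

private theorem card_J (d : ℕ) : Nat.card (Fin (d + 1) ⊕ Fin (d + 1)) = 2 * (d + 1) := by
  rw [Nat.card_eq_fintype_card, Fintype.card_sum, Fintype.card_fin]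
  ring

private theorem bv_card {O : Type} [CommRing O] (V : Finset O) (d : ℕ) (P : O[X] → O[X] → Prop) :
    Nat.card {q : O[X] × O[X] // Bv V d q.1 ∧ Bv V d q.2 ∧ P q.1 q.2} =
      Nat.card {f : Fin (d + 1) ⊕ Fin (d + 1) → O // (∀ i, f i ∈ V) ∧
        P (bpol fun i => f (Sum.inl i)) (bpol fun i => f (Sum.inr i))} := by
  have h2 : Nat.card {q : O[X] × O[X] // Bv V d q.1 ∧ Bv V d q.2 ∧ P q.1 q.2} =
      Nat.card {q : O[X] × O[X] // q.1.natDegree ≤ d ∧ q.2.natDegree ≤ d ∧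
        (Bv V d q.1 ∧ Bv V d q.2 ∧ P q.1 q.2)} :=
    Nat.card_congr (Equiv.subtypeEquivRight fun q =>
      ⟨fun h => ⟨h.1.1, h.2.1.1, h⟩, fun h => h.2.2⟩)
  rw [h2, bgen d (fun a b => Bv V d a ∧ Bv V d b ∧ P a b)]
  refine Nat.card_congr (Equiv.subtypeEquivRight fun f => ?_)
  rw [bv_iff, bv_iff]
  constructor
  · rintro ⟨ha, hb, hc⟩
    refine ⟨fun i => ?_, hc⟩
    cases i with
    | inl i => exact ha i
    | inr i => exact hb i
  · rintro ⟨ha, hc⟩
    exact ⟨fun i => ha _, fun i => ha _, hc⟩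

theorem cva_card {O : Type} [CommRing O] (V : Finset O) (d : ℕ) :
    Nat.card {q : O[X] × O[X] // Bv V d q.1 ∧ Bv V d q.2} = V.card ^ (2 * (d + 1)) := by
  have h1 : Nat.card {q : O[X] × O[X] // Bv V d q.1 ∧ Bv V d q.2} =
      Nat.card {q : O[X] × O[X] // Bv V d q.1 ∧ Bv V d q.2 ∧ True} :=
    Nat.card_congr (Equiv.subtypeEquivRight fun q =>
      ⟨fun h => ⟨h.1, h.2, trivial⟩, fun h => ⟨h.1, h.2.1⟩⟩)
  have h2 : Nat.card {f : Fin (d + 1) ⊕ Fin (d + 1) → O // (∀ i, f i ∈ V) ∧ True} =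
      Nat.card (Fin (d + 1) ⊕ Fin (d + 1) → V) :=
    Nat.card_congr ⟨fun f i => ⟨f.1 i, f.2.1 i⟩, fun f => ⟨fun i => (f i).1, fun i => (f i).2, trivial⟩,
      fun f => rfl, fun f => rfl⟩
  rw [h1, bv_card V d (fun _ _ => True), h2, Nat.card_fun, card_J, Nat.card_eq_fintype_card,
    Fintype.card_coe]

theorem cva {O : Type} [CommRing O] (I : Ideal O) [Finite (O ⧸ I)] (V : Finset O) (d : ℕ) {m : ℝ}
    (hm : 0 ≤ m) (h : ∀ c : O ⧸ I, m ≤ (Nat.card {v : O // v ∈ V ∧ Ideal.Quotient.mk I v = c} : ℝ))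
    (G : (O ⧸ I)[X] → (O ⧸ I)[X] → Prop) :
    m ^ (2 * (d + 1)) * (Nat.card {g : (O ⧸ I)[X] × (O ⧸ I)[X] //
      g.1.natDegree ≤ d ∧ g.2.natDegree ≤ d ∧ G g.1 g.2} : ℝ) ≤
        (Nat.card {q : O[X] × O[X] // Bv V d q.1 ∧ Bv V d q.2 ∧
          G (q.1.map (Ideal.Quotient.mk I)) (q.2.map (Ideal.Quotient.mk I))} : ℝ) := by
  classical
  rw [bgen (R := O ⧸ I) d G, bv_card V d (fun a b => G (a.map (Ideal.Quotient.mk I))
    (b.map (Ideal.Quotient.mk I)))]
  let S : Type := {g : Fin (d + 1) ⊕ Fin (d + 1) → O ⧸ I //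
    G (bpol fun i => g (Sum.inl i)) (bpol fun i => g (Sum.inr i))}
  let T : Type := {f : Fin (d + 1) ⊕ Fin (d + 1) → O // (∀ i, f i ∈ V) ∧
    G ((bpol fun i => f (Sum.inl i)).map (Ideal.Quotient.mk I))
      ((bpol fun i => f (Sum.inr i)).map (Ideal.Quotient.mk I))}
  let π : T → S := fun f => ⟨fun i => Ideal.Quotient.mk I (f.1 i), by
    have h1 := f.2.2
    rw [bpol_map, bpol_map] at h1
    exact h1⟩
  haveI : Finite S := inferInstanceAs (Finite {g : Fin (d + 1) ⊕ Fin (d + 1) → O ⧸ I //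
    G (bpol fun i => g (Sum.inl i)) (bpol fun i => g (Sum.inr i))})
  haveI : Fintype S := Fintype.ofFinite S
  haveI hfin : ∀ c : O ⧸ I, Finite {v : O // v ∈ V ∧ Ideal.Quotient.mk I v = c} := fun c =>
    (V.finite_toSet.subset (fun v hv => hv.1) : {v | v ∈ V ∧ Ideal.Quotient.mk I v = c}.Finite)
  have hfib : ∀ g : S, Nat.card {f : T // π f = g} =
      ∏ i, Nat.card {v : O // v ∈ V ∧ Ideal.Quotient.mk I v = g.1 i} := by
    intro g
    rw [← Nat.card_pi]
    refine Nat.card_congr ⟨fun f i => ⟨f.1.1 i, f.1.2.1 i, congrFun (congrArg Subtype.val f.2) i⟩,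
      fun y => ⟨⟨fun i => (y i).1, fun i => (y i).2.1, ?_⟩, ?_⟩, ?_, ?_⟩
    · rw [bpol_map, bpol_map]
      have h1 : (fun i => Ideal.Quotient.mk I ((y i).1)) = g.1 := funext fun i => (y i).2.2
      have h2 := g.2
      rw [← h1] at h2
      exact h2
    · exact Subtype.ext (funext fun i => (y i).2.2)
    · intro f
      rfl
    · intro f
      rfl
  haveI hfibf : ∀ g : S, Finite {f : T // π f = g} := by
    intro g
    have : Finite T := by
      have h1 : Finite (Fin (d + 1) ⊕ Fin (d + 1) → V) := inferInstance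
      refine Finite.of_injective (β := Fin (d + 1) ⊕ Fin (d + 1) → V) (fun f i => ⟨f.1 i, f.2.1 i⟩) ?_
      intro f f' hff
      apply Subtype.ext
      funext i
      exact congrArg Subtype.val (congrFun hff i)
    infer_instance
  have hsum : Nat.card T = ∑ g : S, Nat.card {f : T // π f = g} := by
    rw [← Nat.card_sigma]
    exact Nat.card_congr (Equiv.sigmaFiberEquiv π).symm
  have hmain : m ^ (2 * (d + 1)) * (Nat.card S : ℝ) ≤ (Nat.card T : ℝ) := by
    rw [hsum]
    push_cast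
    have h1 : m ^ (2 * (d + 1)) * (Nat.card S : ℝ) = ∑ g : S, m ^ (2 * (d + 1)) := by
      rw [Finset.sum_const, Finset.card_univ, nsmul_eq_mul, Nat.card_eq_fintype_card]
      ring
    rw [h1]
    refine Finset.sum_le_sum fun g _ => ?_
    rw [hfib g]
    push_cast
    have h2 : m ^ (2 * (d + 1)) = ∏ _i : Fin (d + 1) ⊕ Fin (d + 1), m := by
      rw [Finset.prod_const, Finset.card_univ, ← Nat.card_eq_fintype_card, card_J]
    rw [h2]
    exact Finset.prod_le_prod (fun i _ => hm) (fun i _ => h (g.1 i))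
  exact hmain

end Pool.Agent.H94.AB
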