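import Pool.Agent.H94.AA.Defs

set_option autoImplicit false

/-!
# [H94 AB Defs] Every infinite finitely generated domain: definitions
-/

namespace Pool.Agent.H94.AB

open Polynomial

/-- a ring like the `p`-adic integers: Henselian, uncountable -/
structure Hd (R k : Type) [CommRing R] [Field k] extends H94.AA.Rd R k where
  ne : ϖ ≠ 0
  hens : ∀ f : R[X], f.Monic → ∀ a : R, φ (f.eval a) = 0 → φ ((derivative f).eval a) ≠ 0 →
    ∃ x : R, f.eval x = 0 ∧ φ x = φ a
  unc : Uncountable R

/-- `φ` is the reduction of an embedding of `O` into such a ring -/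
def Lf (O F : Type) [CommRing O] [Field F] (φ : O →+* F) : Prop :=
  ∃ (R : Type) (_ : CommRing R) (_ : IsDomain R) (_ : UniqueFactorizationMonoid R)
    (r : H94.AA.Rd R F) (ι : O →+* R), Function.Injective ι ∧ φ = r.φ.comp ι

/-- presentation of the field `K` over the domain `Z`: `K` is generated, as a field, over the polynomial ring
`Z[x₁, …, xₙ]` by a root `θ` of the monic separable polynomial `G` -/
structure Pr (Z K : Type) [CommRing Z] [Field K] (i : Z →+* K) where
  n : ℕ
  x : Fin n → K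
  inj : Function.Injective (MvPolynomial.eval₂Hom i x)
  θ : K
  G : (MvPolynomial (Fin n) Z)[X]
  monic : G.Monic
  root : G.eval₂ (MvPolynomial.eval₂Hom i x) θ = 0
  min : ∀ P : (MvPolynomial (Fin n) Z)[X], P.eval₂ (MvPolynomial.eval₂Hom i x) θ = 0 →
    ∃ q : MvPolynomial (Fin n) Z, q ≠ 0 ∧ G ∣ C q * P
  rep : ∀ y : K, ∃ (P : (MvPolynomial (Fin n) Z)[X]) (q : MvPolynomial (Fin n) Z), q ≠ 0 ∧
    y * MvPolynomial.eval₂Hom i x q = P.eval₂ (MvPolynomial.eval₂Hom i x) θ
  sep : ∃ (U V : (MvPolynomial (Fin n) Z)[X]) (D : MvPolynomial (Fin n) Z), D ≠ 0 ∧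
    U * G + V * derivative G = C D

/-- coefficients in the finite set `V` -/
def Bv {O : Type} [CommRing O] (V : Finset O) (d : ℕ) (f : O[X]) : Prop :=
  f.natDegree ≤ d ∧ ∀ i ≤ d, f.coeff i ∈ V

end Pool.Agent.H94.AB
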