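import Pool.Agent.H94.AB.HW

set_option autoImplicit false

/-!
# [H94 AB EMW] The completion of `𝔽_p[s]` at a prime `π`

`k = AdjoinRoot π` (a field, `Fact (Irreducible π)`; finite with `p ^ deg π` elements: power basis `AdjoinRoot.powerBasis`, `Module.card_eq_pow_finrank`), `α = AdjoinRoot.root π`, `r` from `hdw` (`2 ≠ 0` in `k`: `k` is a `ZMod p`-algebra and `p ≠ 2`), `j = eval₂RingHom (PowerSeries.C.comp (algebraMap (ZMod p) k)) (PowerSeries.C α + PowerSeries.X)`.
* `constantCoeff (j f) = f(α)` (ring homomorphism extensionality), which is zero if and only if `π ∣ f` (`AdjoinRoot.mk_eq_zero`, `AdjoinRoot.aeval_eq`), and `f ↦ f(α)` is surjective (`AdjoinRoot.mk_surjective`).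
* `j` is injective: `j f` is the power series of the polynomial `(f.map _).comp (X + C α)` (or `taylor α (f.map _)`), which is zero only for `f = 0` (`Polynomial.coe_injective`, `Polynomial.taylor_injective`, `Polynomial.map_injective`).
-/

namespace Pool.Agent.H94.AB

open Polynomial

theorem emw (p : ℕ) [Fact p.Prime] (hp : p ≠ 2) (π : (ZMod p)[X]) (hπ : Irreducible π) :
    ∃ (k : Type) (_ : Field k) (_ : Finite k) (r : Hd (PowerSeries k) k)
      (j : (ZMod p)[X] →+* PowerSeries k), Function.Injective j ∧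
        (∀ f, r.φ (j f) = 0 ↔ π ∣ f) ∧ Function.Surjective (r.φ.comp j) ∧
          π.natDegree < Nat.card k := by
  have _ : Fact (Irreducible π) := ⟨hπ⟩
  have h0 : π ≠ 0 := hπ.ne_zero
  have _ : Module.Finite (ZMod p) (AdjoinRoot π) := (AdjoinRoot.powerBasis h0).finite
  have hfin : Finite (AdjoinRoot π) := Module.finite_of_finite (ZMod p)
  have h2 : (2 : AdjoinRoot π) ≠ 0 := by
    intro h
    have _ : CharP (AdjoinRoot π) p :=
      charP_of_injective_algebraMap (algebraMap (ZMod p) (AdjoinRoot π)).injective p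
    have h1 : ((2 : ℕ) : AdjoinRoot π) = 0 := by
      rw [Nat.cast_ofNat]
      exact h
    rw [CharP.cast_eq_zero_iff (AdjoinRoot π) p] at h1
    exact hp ((Nat.prime_dvd_prime_iff_eq Fact.out Nat.prime_two).1 h1)
  obtain ⟨r, hr⟩ := hdw (AdjoinRoot π) h2
  obtain ⟨j, hj⟩ : ∃ j : (ZMod p)[X] →+* PowerSeries (AdjoinRoot π),
      j = eval₂RingHom ((PowerSeries.C (R := AdjoinRoot π)).comp (algebraMap (ZMod p) (AdjoinRoot π)))
        (PowerSeries.C (AdjoinRoot.root π) + PowerSeries.X) := ⟨_, rfl⟩
  have hjC : ∀ a, j (C a) = PowerSeries.C (algebraMap (ZMod p) (AdjoinRoot π) a) := by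
    intro a
    rw [hj, coe_eval₂RingHom, eval₂_C]
    rfl
  have hjX : j X = PowerSeries.C (AdjoinRoot.root π) + PowerSeries.X := by
    rw [hj, coe_eval₂RingHom, eval₂_X]
  have hcomp : r.φ.comp j = AdjoinRoot.mk π := by
    refine Polynomial.ringHom_ext (fun a => ?_) ?_
    · rw [RingHom.comp_apply, hjC, hr, PowerSeries.constantCoeff_C, AdjoinRoot.mk_C]
      rfl
    · rw [RingHom.comp_apply, hjX, hr, map_add, PowerSeries.constantCoeff_C,
        PowerSeries.constantCoeff_X, add_zero, AdjoinRoot.mk_X]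
  have hinj : Function.Injective j := by
    obtain ⟨j', hj'⟩ : ∃ j' : (ZMod p)[X] →+* PowerSeries (AdjoinRoot π),
      j' = (Polynomial.coeToPowerSeries.ringHom (R := AdjoinRoot π)).comp
        ((compRingHom (X + C (AdjoinRoot.root π))).comp
          (mapRingHom (algebraMap (ZMod p) (AdjoinRoot π)))) := ⟨_, rfl⟩
    have hjj : j = j' := by
      refine Polynomial.ringHom_ext (fun a => ?_) ?_
      · rw [hjC, hj', RingHom.comp_apply, RingHom.comp_apply, coe_mapRingHom, map_C,
          coe_compRingHom]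
        show _ = Polynomial.coeToPowerSeries.ringHom ((C _ : (AdjoinRoot π)[X]).comp _)
        rw [C_comp]
        simp
      · rw [hjX, hj', RingHom.comp_apply, RingHom.comp_apply, coe_mapRingHom, map_X,
          coe_compRingHom]
        show _ = Polynomial.coeToPowerSeries.ringHom ((X : (AdjoinRoot π)[X]).comp _)
        rw [X_comp]
        simp [add_comm]
    rw [injective_iff_map_eq_zero]
    intro f hf
    rw [hjj, hj', RingHom.comp_apply, RingHom.comp_apply, coe_mapRingHom, coe_compRingHom,
      Polynomial.coeToPowerSeries.ringHom_apply, Polynomial.coe_eq_zero_iff] at hf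
    have h3 : taylor (AdjoinRoot.root π) (f.map (algebraMap (ZMod p) (AdjoinRoot π))) = 0 := by
      rw [taylor_apply]
      exact hf
    have h4 : f.map (algebraMap (ZMod p) (AdjoinRoot π)) = 0 :=
      taylor_injective (AdjoinRoot.root π) (by rw [h3, map_zero])
    exact (Polynomial.map_eq_zero_iff (algebraMap (ZMod p) (AdjoinRoot π)).injective).1 h4
  refine ⟨AdjoinRoot π, inferInstance, hfin, r, j, hinj, ?_, ?_, ?_⟩
  · intro f
    rw [← RingHom.comp_apply, hcomp, AdjoinRoot.mk_eq_zero]
  · rw [hcomp]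
    exact AdjoinRoot.mk_surjective
  · have h3 : Module.finrank (ZMod p) (AdjoinRoot π) = π.natDegree := by
      rw [(AdjoinRoot.powerBasis h0).finrank, AdjoinRoot.powerBasis_dim]
    rw [Module.natCard_eq_pow_finrank (K := ZMod p), h3, Nat.card_zmod]
    exact Nat.lt_pow_self (Fact.out : p.Prime).one_lt

end Pool.Agent.H94.AB
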