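import Pool.Agent.H94.AB.IND
import Pool.Agent.H94.AB.Defs

set_option autoImplicit false

/-!
# [H94 AB GEN] The embedding theorem of Cassels

`S = MvPolynomial (Fin n) Z`, `ev = eval₂Hom i x`, `G`, `θ`, `U G + V G' = C D₀` as in `Pr`.  For `y ∈ Y` let `y * ev (q_y) = P_y(θ)` (`rep`).  `H = D₀ * ∏ y ∈ Y, q_y ≠ 0` in the domain `S`; `Z` is an infinite domain, so `H a ≠ 0` for some `a : Fin n → Z` (`MvPolynomial.funext`).
`D = eval a H`, `G_a = G.map (eval a) ∈ Z[X]`, monic of the same degree, positive since `G` has the root `θ` (`G = 1` is impossible).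
Let `R`, `k`, `r`, `j`, `b` be given.  `ξ` from `indep` (`r.unc`, `r.ne`): `r.φ (ξ l) = r.φ (j (a l))` (`r.ker`), `ev' = eval₂Hom j ξ : S → R` injective.  `G' = G.map ev' ∈ R[X]` is monic; `r.φ (G'.eval (j b)) = r.φ (j (G_a.eval b)) = 0` (`r.φ ∘ ev' = r.φ ∘ j ∘ eval a` on `S`: ring homomorphism extensionality `MvPolynomial.ringHom_ext`).
`U G + V G' = C D₀` at `j b`, reduced: `V(b) G'_a(b) = D₀(a)` in `k`, not zero since `D₀(a)` divides `D` and `r.φ (j D) ≠ 0`; so the derivative is not zero and `r.hens` gives `η ∈ R` with `G'.eval η = 0`.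
* The homomorphism: `A = {P.eval₂ ev θ}` is a subring of `K` (range of `S[X] → K`), `ψ : S[X] → R`, `P ↦ P.eval₂ ev' η`.  If `P.eval₂ ev θ = 0` then `C q * P = G * Q` (`min`), so `ev' q * ψ P = 0`, `ψ P = 0` (`ev'` injective, `q ≠ 0`).  If `P.eval₂ ev θ = y ≠ 0` then `ψ P ≠ 0`: `y⁻¹ * ev q = P'(θ)`, so `(P * P' - C q)(θ) = 0`, `ψ P * ψ P' = ev' q ≠ 0`.
  So `ψ` factors through an injective map of the subring `A → R`; every element of `K` is a quotient of elements of `A` (`rep`), i.e. `K` is the fraction field of `A`, and `IsFractionRing.lift` gives `κ : K → FractionRing R` (or define `κ y = ψ P / ev' q` for `rep` and check the axioms).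
* `κ y * ev' (q_y) = ψ (P_y)` and `r.φ (ev' q_y) = r.φ (j (eval a q_y)) ≠ 0` (divisor of `D`), so `ev' q_y` is a unit of `R` (`r.unit`) and `κ y` is in `R`.
-/

namespace Pool.Agent.H94.AB

open Polynomial

theorem gen {Z K : Type} [CommRing Z] [IsDomain Z] [Infinite Z] [Countable Z] [Field K]
    {i : Z →+* K} (P : Pr Z K i) (Y : Finset K) :
    ∃ (D : Z) (G : Z[X]), D ≠ 0 ∧ G.Monic ∧ 0 < G.natDegree ∧
      ∀ (R k : Type) [CommRing R] [IsDomain R] [Field k] (r : Hd R k) (j : Z →+* R),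
        Function.Injective j → r.φ (j D) ≠ 0 → (∃ b : Z, r.φ (j (G.eval b)) = 0) →
        ∃ κ : K →+* FractionRing R, (∀ z, κ (i z) = algebraMap R (FractionRing R) (j z)) ∧
          ∀ y ∈ Y, ∃ x : R, algebraMap R (FractionRing R) x = κ y := by
  classical
  obtain ⟨U, V, D₀, hD₀, hUV⟩ := P.sep
  choose Pf q hq hrep using P.rep
  have hH : D₀ * ∏ y ∈ Y, q y ≠ 0 := mul_ne_zero hD₀ (Finset.prod_ne_zero_iff.2 fun y _ => hq y)
  obtain ⟨a, ha⟩ : ∃ a : Fin P.n → Z, MvPolynomial.eval a (D₀ * ∏ y ∈ Y, q y) ≠ 0 := by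
    by_contra hcon
    push Not at hcon
    exact hH (MvPolynomial.funext fun x => by rw [hcon x, map_zero])
  refine ⟨MvPolynomial.eval a (D₀ * ∏ y ∈ Y, q y), P.G.map (MvPolynomial.eval a), ha,
    P.monic.map _, ?_, ?_⟩
  · rw [P.monic.natDegree_map, Nat.pos_iff_ne_zero]
    intro h0
    have h1 := P.root
    rw [P.monic.natDegree_eq_zero.1 h0, eval₂_one] at h1
    exact one_ne_zero h1
  intro R k _ _ _ r j hj hD hb
  obtain ⟨b, hb⟩ := hb
  have _ := r.unc
  obtain ⟨ξ, hξ, hinj⟩ := indep j hj r.ne a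
  obtain ⟨ev', hev'⟩ : ∃ ev' : MvPolynomial (Fin P.n) Z →+* R, ev' = MvPolynomial.eval₂Hom j ξ :=
    ⟨_, rfl⟩
  rw [← hev'] at hinj
  have hevC : ∀ z, ev' (MvPolynomial.C z) = j z := by
    intro z
    rw [hev']
    exact MvPolynomial.eval₂_C _ _ _
  have hcomp : r.φ.comp ev' = (r.φ.comp j).comp (MvPolynomial.eval a) := by
    refine MvPolynomial.ringHom_ext (fun z => ?_) fun l => ?_
    · rw [RingHom.comp_apply, RingHom.comp_apply, RingHom.comp_apply, hevC, MvPolynomial.eval_C]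
    · rw [RingHom.comp_apply, RingHom.comp_apply, RingHom.comp_apply, MvPolynomial.eval_X, hev']
      have h1 : MvPolynomial.eval₂Hom j ξ (MvPolynomial.X l) = ξ l := MvPolynomial.eval₂_X _ _ _
      rw [h1]
      have h2 := (r.ker _).2 (hξ l)
      rw [map_sub, sub_eq_zero] at h2
      exact h2
  have hφ : ∀ F, r.φ (ev' F) = r.φ (j (MvPolynomial.eval a F)) := fun F => RingHom.congr_fun hcomp F
  have hpol : ∀ F : (MvPolynomial (Fin P.n) Z)[X], r.φ ((F.map ev').eval (j b)) =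
      r.φ (j ((F.map (MvPolynomial.eval a)).eval b)) := by
    intro F
    rw [eval_map, eval_map, hom_eval₂, hom_eval₂, hom_eval₂, hcomp]
    rfl
  have hDp : r.φ (j (MvPolynomial.eval a D₀)) ≠ 0 ∧ ∀ y ∈ Y, r.φ (j (MvPolynomial.eval a (q y))) ≠ 0 := by
    rw [map_mul, map_mul, map_mul, map_prod, map_prod, map_prod] at hD
    exact ⟨left_ne_zero_of_mul hD, Finset.prod_ne_zero_iff.1 (right_ne_zero_of_mul hD)⟩
  have hroot : r.φ ((P.G.map ev').eval (j b)) = 0 := by rw [hpol, hb]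
  have hder : r.φ ((derivative (P.G.map ev')).eval (j b)) ≠ 0 := by
    intro h0
    have h1 := congrArg (fun F : (MvPolynomial (Fin P.n) Z)[X] => r.φ ((F.map ev').eval (j b))) hUV
    simp only [Polynomial.map_add, Polynomial.map_mul, eval_add, eval_mul, map_add, map_mul,
      Polynomial.map_C, eval_C] at h1
    rw [hroot, mul_zero, zero_add, ← derivative_map, h0, mul_zero, hφ] at h1
    exact hDp.1 h1.symm
  obtain ⟨η, hη, -⟩ := r.hens (P.G.map ev') (P.monic.map _) (j b) hroot hder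
  obtain ⟨ψ, hψ⟩ : ∃ ψ : (MvPolynomial (Fin P.n) Z)[X] →+* FractionRing R,
      ψ = (algebraMap R (FractionRing R)).comp (eval₂RingHom ev' η) := ⟨_, rfl⟩
  have hψP : ∀ F, ψ F = algebraMap R (FractionRing R) (F.eval₂ ev' η) := by
    intro F
    rw [hψ]
    rfl
  have hψC : ∀ c, ψ (C c) = algebraMap R (FractionRing R) (ev' c) := by
    intro c
    rw [hψP, eval₂_C]
  have hψG : ψ P.G = 0 := by
    rw [hψP, ← eval_map, hη, map_zero]
  have halg : Function.Injective (algebraMap R (FractionRing R)) := IsFractionRing.injective R _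
  have hψC0 : ∀ c, c ≠ 0 → ψ (C c) ≠ 0 := by
    intro c hc h0
    rw [hψC, ← map_zero (algebraMap R (FractionRing R))] at h0
    have h1 := halg h0
    rw [← map_zero ev'] at h1
    exact hc (hinj h1)
  -- the kernel
  have hker : ∀ F : (MvPolynomial (Fin P.n) Z)[X],
      F.eval₂ (MvPolynomial.eval₂Hom i P.x) P.θ = 0 → ψ F = 0 := by
    intro F hF
    obtain ⟨c, hc, F', hF'⟩ := P.min F hF
    have h1 := congrArg ψ hF'
    rw [map_mul, map_mul, hψG, zero_mul] at h1
    rcases mul_eq_zero.1 h1 with h2 | h2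
    · exact absurd h2 (hψC0 c hc)
    · exact h2
  -- the quotient does not depend on the representation
  have hwell : ∀ (y : K) (F : (MvPolynomial (Fin P.n) Z)[X]) (c : MvPolynomial (Fin P.n) Z), c ≠ 0 →
      y * MvPolynomial.eval₂Hom i P.x c = F.eval₂ (MvPolynomial.eval₂Hom i P.x) P.θ →
      ψ (Pf y) / ψ (C (q y)) = ψ F / ψ (C c) := by
    intro y F c hc hF
    rw [div_eq_div_iff (hψC0 _ (hq y)) (hψC0 _ hc), ← map_mul, ← map_mul, ← sub_eq_zero, ← map_sub]
    apply hker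
    rw [eval₂_sub, eval₂_mul, eval₂_mul, eval₂_C, eval₂_C, ← hrep y, ← hF]
    ring
  have hone : ∀ y F, y * MvPolynomial.eval₂Hom i P.x (1 : MvPolynomial (Fin P.n) Z) =
      Polynomial.eval₂ (MvPolynomial.eval₂Hom i P.x) P.θ F → ψ (Pf y) / ψ (C (q y)) = ψ F := by
    intro y F h
    rw [hwell y F 1 one_ne_zero h, C_1, map_one, div_one]
  refine ⟨{ toFun := fun y => ψ (Pf y) / ψ (C (q y))
            map_one' := ?_
            map_mul' := ?_
            map_zero' := ?_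
            map_add' := ?_ }, ?_, ?_⟩
  · rw [hone 1 1 (by rw [map_one, eval₂_one, mul_one]), map_one]
  · intro x y
    show ψ (Pf (x * y)) / ψ (C (q (x * y))) = ψ (Pf x) / ψ (C (q x)) * (ψ (Pf y) / ψ (C (q y)))
    rw [hwell (x * y) (Pf x * Pf y) (q x * q y) (mul_ne_zero (hq x) (hq y)), div_mul_div_comm,
      map_mul, C_mul, map_mul]
    rw [eval₂_mul, ← hrep, ← hrep, map_mul]
    ring
  · rw [hone 0 0 (by rw [eval₂_zero, zero_mul]), map_zero]
  · intro x y
    show ψ (Pf (x + y)) / ψ (C (q (x + y))) = ψ (Pf x) / ψ (C (q x)) + ψ (Pf y) / ψ (C (q y))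
    rw [hwell (x + y) (Pf x * C (q y) + C (q x) * Pf y) (q x * q y) (mul_ne_zero (hq x) (hq y)),
      div_add_div _ _ (hψC0 _ (hq x)) (hψC0 _ (hq y)), map_add, C_mul, map_mul, map_mul, map_mul]
    rw [eval₂_add, eval₂_mul, eval₂_mul, eval₂_C, eval₂_C, ← hrep, ← hrep, map_mul]
    ring
  · intro z
    show ψ (Pf (i z)) / ψ (C (q (i z))) = _
    rw [hone (i z) (C (MvPolynomial.C z)), hψC, hevC]
    rw [map_one, mul_one, eval₂_C]
    exact (MvPolynomial.eval₂_C _ _ _).symm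
  · intro y hy
    have hu : IsUnit (ev' (q y)) := by
      apply r.unit
      rw [hφ]
      exact hDp.2 y hy
    obtain ⟨u, hu⟩ := hu
    refine ⟨(Pf y).eval₂ ev' η * (u⁻¹ : Rˣ), ?_⟩
    show _ = ψ (Pf y) / ψ (C (q y))
    rw [eq_div_iff (hψC0 _ (hq y)), hψC, hψP, ← map_mul, ← hu, mul_assoc, Units.inv_mul, mul_one]

end Pool.Agent.H94.AB
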