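import Mathlib

set_option autoImplicit false

/-!
# [H94 AB PRS] Separating transcendence basis of a finitely generated extension of a perfect field (common part of PR0 and PRP)
-/

namespace Pool.Agent.H94.AB

open IntermediateField in
theorem fin_sep (k K : Type) [Field k] [PerfectField k] [Field K] [Algebra k K]
    [Algebra.EssFiniteType k K] :
    ∃ (n : ℕ) (x : Fin n → K), IsTranscendenceBasis k x ∧
      ∃ E : Subfield K, (∀ e, e ∈ E ↔ ∃ r s : MvPolynomial (Fin n) k,
        e = MvPolynomial.aeval x r / MvPolynomial.aeval x s) ∧
        FiniteDimensional E K ∧ Algebra.IsSeparable E K := by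
  obtain ⟨s, hs, hsep⟩ := exists_isTranscendenceBasis_and_isSeparable_of_perfectField k K
  refine ⟨s.card, fun l => (s.equivFin.symm l : K), ?_, (adjoin k (s : Set K)).toSubfield, ?_, ?_, ?_⟩
  · exact hs.comp_equiv s.equivFin.symm
  · intro e
    have hr : Set.range (fun l => (s.equivFin.symm l : K)) = (s : Set K) := by
      ext y
      constructor
      · rintro ⟨l, rfl⟩
        exact (s.equivFin.symm l).2
      · intro hy
        exact ⟨s.equivFin ⟨y, hy⟩, by simp⟩
    rw [← mem_adjoin_range_iff, hr]
    rfl
  · have h1 : Algebra.EssFiniteType (adjoin k (s : Set K)) K := Algebra.EssFiniteType.of_comp k _ K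
    have h2 : FiniteDimensional (adjoin k (s : Set K)) K := by
      obtain ⟨t, ht⟩ := IntermediateField.fg_top (adjoin k (s : Set K)) K
      have h3 : FiniteDimensional (adjoin k (s : Set K)) (adjoin (adjoin k (s : Set K)) (t : Set K)) := by
        have := t.finite_toSet.to_subtype
        exact IntermediateField.finiteDimensional_adjoin (fun y _ => Algebra.IsIntegral.isIntegral y)
      rw [ht] at h3
      exact Module.Finite.equiv (IntermediateField.topEquiv (F := adjoin k (s : Set K)) (E := K)).toLinearEquiv
    exact h2
  · exact hsep

end Pool.Agent.H94.AB
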