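import Pool.Agent.H94.AB.PRG
import Pool.Agent.H94.AB.PRS

set_option autoImplicit false

/-!
# [H94 AB PR0] Presentation of a finitely generated field of characteristic zero over `ℤ`

`exists_isTranscendenceBasis_and_isSeparable_of_perfectField ℚ K` (`Mathlib/FieldTheory/SeparablyGenerated.lean`): a finite transcendence basis `s`; `n = s.card`, `x : Fin n → K` its elements (`s.equivFin`).
`ℚ → K`-algebraic independence gives the injectivity of `eval₂Hom (Int.castRingHom K) x` (compose with the injective map `MvPolynomial (Fin n) ℤ → MvPolynomial (Fin n) ℚ`, `MvPolynomial.map_injective`).  `E = (IntermediateField.adjoin ℚ s).toSubfield`: `hE`, `hE'`: every element of `E` is a quotient `P(x) / Q(x)` with rational coefficients (`IntermediateField.mem_adjoin_iff` or induction `IntermediateField.adjoin_induction`/`Subfield.closure_induction` over `Subfield.closure`), clear denominators.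
`K` is algebraic over `E` (transcendence basis, `IsTranscendenceBasis.isAlgebraic_field`) and finitely generated, so finite dimensional.
-/

namespace Pool.Agent.H94.AB

private theorem ev_eq {K : Type} [Field K] [CharZero K] {n : ℕ} (x : Fin n → K)
    (a : MvPolynomial (Fin n) ℤ) :
    MvPolynomial.eval₂Hom (Int.castRingHom K) x a
      = MvPolynomial.aeval x (MvPolynomial.map (Int.castRingHom ℚ) a) := by
  have h : Int.castRingHom K = (algebraMap ℚ K).comp (Int.castRingHom ℚ) := RingHom.ext_int _ _
  rw [MvPolynomial.aeval_def, MvPolynomial.eval₂_map, h]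
  rfl

private theorem clear {n : ℕ} (r : MvPolynomial (Fin n) ℚ) :
    ∃ (a : MvPolynomial (Fin n) ℤ) (N : ℤ), N ≠ 0 ∧
      r * MvPolynomial.map (Int.castRingHom ℚ) (MvPolynomial.C N)
        = MvPolynomial.map (Int.castRingHom ℚ) a := by
  have := MvPolynomial.isLocalization (σ := Fin n) (M := nonZeroDivisors ℤ) (S := ℚ)
  let _ := MvPolynomial.algebraMvPolynomial (σ := Fin n) (R := ℤ) (S := ℚ)
  obtain ⟨⟨a, b⟩, h⟩ := IsLocalization.surj
    ((nonZeroDivisors ℤ).map (MvPolynomial.C (σ := Fin n))) r
  obtain ⟨N, hN, hb⟩ := b.2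
  refine ⟨a, N, nonZeroDivisors.ne_zero hN, ?_⟩
  simp only [← hb] at h
  exact h

theorem pr0 (K : Type) [Field K] [CharZero K] [Algebra.EssFiniteType ℚ K] :
    Nonempty (Pr ℤ K (Int.castRingHom K)) := by
  obtain ⟨n, x, hx, E, hE, hfin, hsep⟩ := fin_sep ℚ K
  have hinj : Function.Injective (MvPolynomial.aeval (R := ℚ) x) := hx.1
  have hmap : Function.Injective
      (MvPolynomial.map (σ := Fin n) (Int.castRingHom ℚ)) :=
    MvPolynomial.map_injective _ Int.cast_injective
  have hev : Function.Injective (MvPolynomial.eval₂Hom (Int.castRingHom K) x) := by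
    intro a b h
    rw [ev_eq, ev_eq] at h
    exact hmap (hinj h)
  refine prg (Int.castRingHom K) x hev E ?_ ?_
  · intro a
    rw [hE]
    exact ⟨MvPolynomial.map (Int.castRingHom ℚ) a, 1, by rw [ev_eq]; simp⟩
  · intro e he
    obtain ⟨r, s, rfl⟩ := (hE e).1 he
    by_cases hs : s = 0
    · exact ⟨0, 1, one_ne_zero, by simp [hs]⟩
    obtain ⟨a, N, hN, ha⟩ := clear r
    obtain ⟨b, M, hM, hb⟩ := clear s
    have hs' : MvPolynomial.aeval x s ≠ 0 := by
      intro h
      exact hs (hinj (by rw [h, map_zero]))
    have hN' : (N : K) ≠ 0 := Int.cast_ne_zero.2 hN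
    have hM' : (M : K) ≠ 0 := Int.cast_ne_zero.2 hM
    have ha' := congrArg (MvPolynomial.aeval x) ha
    have hb' := congrArg (MvPolynomial.aeval x) hb
    rw [map_mul, ← ev_eq, ← ev_eq] at ha' hb'
    have hCN : MvPolynomial.eval₂Hom (Int.castRingHom K) x (MvPolynomial.C N) = (N : K) := by simp
    have hCM : MvPolynomial.eval₂Hom (Int.castRingHom K) x (MvPolynomial.C M) = (M : K) := by simp
    rw [hCN] at ha'
    rw [hCM] at hb'
    refine ⟨MvPolynomial.C M * a, MvPolynomial.C N * b, ?_, ?_⟩
    · refine mul_ne_zero (by simpa using hN) ?_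
      rintro rfl
      rw [map_zero] at hb'
      exact mul_ne_zero hs' hM' hb'
    · rw [map_mul, map_mul, hCN, hCM, ← ha', ← hb']
      field_simp

end Pool.Agent.H94.AB
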