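import Mathlib

set_option autoImplicit false

/-!
# [H94 AB SCZ] Prime divisors of polynomial values: integers (Schur)

`g₀ = G.eval 0`.  If `g₀ = 0`: any prime `p > max B |D|` and `b = 0`.  Otherwise let `T = D * B!` (not zero) and `b = g₀ T c`: `G b = g₀ (1 + T c h)` with an integer `h` (`G b - G 0` is divisible by `b`: `Polynomial.sub_dvd_eval_sub`).  The polynomial `G` takes each of the values `0, g₀, -g₀` at finitely many integers only (`G - C v ≠ 0` since `0 < natDegree`), so for some `c` the integer `w = G b / g₀ = 1 + T c h` is not `0, 1, -1`: it has a prime factor `p`, which does not divide `T` (`p ∣ w`, `p ∣ T` would give `p ∣ 1`), so `p > B` (`p ∤ B!`), `p ∤ D`, and `p ∣ G b`.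
-/

namespace Pool.Agent.H94.AB

open Polynomial

theorem scz (D : ℤ) (hD : D ≠ 0) (G : ℤ[X]) (hG : G.Monic) (hd : 0 < G.natDegree) (B : ℕ) :
    ∃ p : ℕ, p.Prime ∧ B < p ∧ ¬ (p : ℤ) ∣ D ∧ ∃ b : ℤ, (p : ℤ) ∣ G.eval b := by
  by_cases h0 : G.eval 0 = 0
  · obtain ⟨p, hp, hpp⟩ := Nat.exists_infinite_primes (max B D.natAbs + 1)
    refine ⟨p, hpp, by omega, ?_, 0, by rw [h0]; exact dvd_zero _⟩
    intro h
    have h1 := Nat.le_of_dvd (Int.natAbs_pos.2 hD) (Int.natCast_dvd.1 h)
    omega
  · set T : ℤ := D * (B.factorial : ℤ) with hT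
    have hT0 : T ≠ 0 := mul_ne_zero hD (by exact_mod_cast B.factorial_ne_zero)
    have hne : ∀ v : ℤ, G - C v ≠ 0 := by
      intro v h
      have h1 : G = C v := sub_eq_zero.1 h
      rw [h1, natDegree_C] at hd
      exact lt_irrefl _ hd
    have hex : ∃ c : ℤ, ((G - C (G.eval 0)) * (G - C (-G.eval 0))).eval (G.eval 0 * T * c) ≠ 0 := by
      by_contra hcon
      have hcon2 : ∀ c : ℤ, ((G - C (G.eval 0)) * (G - C (-G.eval 0))).eval (G.eval 0 * T * c) = 0 := by
        intro c
        by_contra hc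
        exact hcon ⟨c, hc⟩
      refine mul_ne_zero (hne (G.eval 0)) (hne (-G.eval 0)) (eq_zero_of_infinite_isRoot _ ?_)
      have hinj : Function.Injective (fun c : ℤ => G.eval 0 * T * c) :=
        mul_right_injective₀ (mul_ne_zero h0 hT0)
      refine (Set.infinite_range_of_injective hinj).mono ?_
      rintro _ ⟨c, rfl⟩
      exact hcon2 c
    obtain ⟨c, hc⟩ := hex
    rw [eval_mul, eval_sub, eval_sub, eval_C, eval_C] at hc
    obtain ⟨h, hh⟩ := sub_dvd_eval_sub (G.eval 0 * T * c) 0 G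
    have hw : G.eval (G.eval 0 * T * c) = G.eval 0 * (1 + T * c * h) := by
      linear_combination hh
    have h1 : (1 + T * c * h).natAbs ≠ 1 := by
      intro h1
      rcases Int.natAbs_eq (1 + T * c * h) with h2 | h2
      · rw [h1] at h2
        rw [hw, h2] at hc
        exact hc (by push_cast; ring)
      · rw [h1] at h2
        rw [hw, h2] at hc
        exact hc (by push_cast; ring)
    obtain ⟨p, hpp, hpw⟩ := Nat.exists_prime_and_dvd h1
    have hpw' : (p : ℤ) ∣ 1 + T * c * h := Int.natCast_dvd.2 hpw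
    have hpT : ¬ (p : ℤ) ∣ T := by
      intro h2
      have h3 : (p : ℤ) ∣ 1 := by
        have h4 : (p : ℤ) ∣ T * c * h := Dvd.dvd.mul_right (Dvd.dvd.mul_right h2 _) _
        have h5 := dvd_sub hpw' h4
        rwa [add_sub_cancel_right] at h5
      have h6 : p ∣ 1 := by exact_mod_cast h3
      exact hpp.one_lt.ne' (Nat.dvd_one.1 h6)
    refine ⟨p, hpp, ?_, ?_, G.eval 0 * T * c, ?_⟩
    · by_contra hB
      exact hpT (Dvd.dvd.mul_left (by exact_mod_cast (hpp.dvd_factorial.2 (not_lt.1 hB))) _)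
    · intro h2
      exact hpT (Dvd.dvd.mul_right h2 _)
    · rw [hw]
      exact Dvd.dvd.mul_left hpw' _

end Pool.Agent.H94.AB
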