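import Pool.Agent.H94.AB.HZ
import Pool.Agent.H94.AB.PR0
import Pool.Agent.H94.AB.GEN
import Pool.Agent.H94.AB.SCZ

set_option autoImplicit false

/-!
# [H94 AB EO0] Finitely generated domains of characteristic zero

`K = FractionRing O` (characteristic zero; `Algebra.EssFiniteType ℚ K`: `O` is of finite type over `ℤ`, `K` is a localisation of `O`; a set of generators of `O` over `ℤ` generates `K` over `ℚ`), `Y` = the images in `K` of finitely many generators of the ring `O` (`Algebra.FiniteType.out`, `Subalgebra.FG`).  `pr0`, `gen` give `D`, `G`; `scz` gives a prime `p > max B 2` with `p ∤ D`, `p ∣ G b`.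
`r` from `hdz`, `j = Int.castRingHom ℤ_[p]` (injective); `r.φ (j z) = (z : ZMod p)` (ring homomorphisms from `ℤ` agree), which is zero if and only if `p ∣ z`.
`κ : K → FractionRing ℤ_[p]`: the set of the `o : O` with `κ (algebraMap O K o)` in the range of `algebraMap ℤ_[p] _` is a subring (a subalgebra over `ℤ`) which contains the generators, so it is everything; `ι : O → ℤ_[p]` is the factorisation through the injective `algebraMap ℤ_[p] (FractionRing ℤ_[p])` (`RingHom.codRestrict`, `RingEquiv.ofInjective` or `Classical.choose` and the injectivity), injective.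
`φ = r.φ.comp ι : O → ZMod p` is surjective (`ZMod.ringHom_surjective`); `Nat.card (ZMod p) = p > B`; `(2 : ZMod p) ≠ 0` is `r.two`.
-/

namespace Pool.Agent.H94.AB

private theorem eo0_ess (K : Type) [Field K] [A : Algebra ℤ K] [Algebra.EssFiniteType ℤ K]
    [CharZero K] : Algebra.EssFiniteType ℚ K := by
  have h0 : A = Ring.toIntAlgebra K := Subsingleton.elim _ _
  subst h0
  exact Algebra.EssFiniteType.of_comp ℤ ℚ K

private theorem eo0_fac {O K R : Type} [CommRing O] [CommRing R] [IsDomain R] [Field K]
    [Algebra O K] (hinj : Function.Injective (algebraMap O K)) (κ : K →+* FractionRing R)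
    (S : Finset O) (hS : Algebra.adjoin ℤ (S : Set O) = ⊤)
    (h : ∀ s ∈ S, ∃ x : R, algebraMap R (FractionRing R) x = κ (algebraMap O K s)) :
    ∃ ι : O →+* R, Function.Injective ι ∧
      ∀ o, algebraMap R (FractionRing R) (ι o) = κ (algebraMap O K o) := by
  have hall : ∀ o : O, ∃ x : R, algebraMap R (FractionRing R) x = κ (algebraMap O K o) := by
    intro o
    have ho : o ∈ Algebra.adjoin ℤ (S : Set O) := by
      rw [hS]
      exact Algebra.mem_top
    induction ho using Algebra.adjoin_induction with
    | mem s hs => exact h s hs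
    | algebraMap z =>
      refine ⟨(z : R), ?_⟩
      rw [eq_intCast, map_intCast, map_intCast, map_intCast]
    | add a b _ _ ha hb =>
      obtain ⟨x, hx⟩ := ha
      obtain ⟨y, hy⟩ := hb
      exact ⟨x + y, by rw [map_add, map_add, map_add, hx, hy]⟩
    | mul a b _ _ ha hb =>
      obtain ⟨x, hx⟩ := ha
      obtain ⟨y, hy⟩ := hb
      exact ⟨x * y, by rw [map_mul, map_mul, map_mul, hx, hy]⟩
  choose ι hι using hall
  have halg : Function.Injective (algebraMap R (FractionRing R)) := IsFractionRing.injective R _
  refine ⟨{ toFun := ι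
            map_one' := halg (by rw [hι, map_one, map_one, map_one])
            map_mul' := fun x y => halg (by rw [hι, map_mul, map_mul, map_mul, hι, hι])
            map_zero' := halg (by rw [hι, map_zero, map_zero, map_zero])
            map_add' := fun x y => halg (by rw [hι, map_add, map_add, map_add, hι, hι]) }, ?_, hι⟩
  intro x y hxy
  have h1 : ι x = ι y := hxy
  have h2 : κ (algebraMap O K x) = κ (algebraMap O K y) := by rw [← hι, ← hι, h1]
  exact hinj (κ.injective h2)

theorem eo0 (O : Type) [CommRing O] [IsDomain O] [CharZero O] [Algebra.FiniteType ℤ O] (B : ℕ) :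
    ∃ (F : Type) (_ : Field F) (_ : Finite F) (φ : O →+* F), Function.Surjective φ ∧
      B < Nat.card F ∧ Lf O F φ := by
  classical
  have hinj : Function.Injective (algebraMap O (FractionRing O)) := IsFractionRing.injective O _
  have _ : CharZero (FractionRing O) := charZero_of_injective_algebraMap hinj
  have _ : Algebra.EssFiniteType O (FractionRing O) :=
    Algebra.EssFiniteType.of_isLocalization (FractionRing O) (nonZeroDivisors O)
  have _ : Algebra.EssFiniteType ℤ (FractionRing O) := Algebra.EssFiniteType.comp ℤ O _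
  have _ : Algebra.EssFiniteType ℚ (FractionRing O) := eo0_ess _
  obtain ⟨P⟩ := pr0 (FractionRing O)
  obtain ⟨S, hS⟩ := (Algebra.FiniteType.out : (⊤ : Subalgebra ℤ O).FG)
  obtain ⟨D, G, hD, hG, hd, H⟩ := gen P (S.image (algebraMap O (FractionRing O)))
  obtain ⟨p, hp, hBp, hpD, b, hb⟩ := scz D hD G hG hd (max B 2)
  have _ : Fact p.Prime := ⟨hp⟩
  have hp2 : p ≠ 2 := by
    have := le_max_right B 2
    omega
  obtain ⟨r⟩ := hdz p hp2
  have hrj : ∀ z : ℤ, r.φ (Int.castRingHom ℤ_[p] z) = 0 ↔ (p : ℤ) ∣ z := by
    intro z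
    rw [eq_intCast, map_intCast, ZMod.intCast_zmod_eq_zero_iff_dvd]
  obtain ⟨κ, -, hκ⟩ := H ℤ_[p] (ZMod p) r (Int.castRingHom ℤ_[p]) (RingHom.injective_int _)
    (fun h => hpD ((hrj D).1 h)) ⟨b, (hrj _).2 hb⟩
  obtain ⟨ι, hι, -⟩ := eo0_fac hinj κ S hS fun s hs => hκ _ (Finset.mem_image_of_mem _ hs)
  refine ⟨ZMod p, inferInstance, inferInstance, r.φ.comp ι, ZMod.ringHom_surjective _, ?_,
    ℤ_[p], inferInstance, inferInstance, inferInstance, r.toRd, ι, hι, rfl⟩
  rw [Nat.card_zmod]
  exact (le_max_left B 2).trans_lt hBp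

end Pool.Agent.H94.AB
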