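import Pool.Agent.H94.AB.PRG
import Pool.Agent.H94.AB.PRS

set_option autoImplicit false

/-!
# [H94 AB PRP] Presentation of an infinite finitely generated field of characteristic `p` over `𝔽_p[s]`

`exists_isTranscendenceBasis_and_isSeparable_of_perfectField (ZMod p) K`: a finite separating transcendence basis `s`.  It is not empty: otherwise `K` is finite over `ZMod p` (algebraic and finitely generated), so finite.
Choose `x₀ ∈ s`, the others are `x : Fin n → K`.  `i : (ZMod p)[X] → K`, `X ↦ x₀` (`Polynomial.aeval x₀`).  The map `MvPolynomial (Fin n) (ZMod p)[X] → K` is the composition of `MvPolynomial.optionEquivRight` (inverse) and the evaluation at the transcendence basis indexed by `Option (Fin n)`: injective by algebraic independence.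
`E = (IntermediateField.adjoin (ZMod p) s).toSubfield`: `hE`, `hE'` as in `H94/AB/PR0.lean` (fractions of polynomials; no denominators to clear), `K` finite and separable over `E`.
-/

namespace Pool.Agent.H94.AB

open Polynomial

private theorem ev_opt {k K : Type} [Field k] [Field K] [Algebra k K] {m : ℕ} (t : K)
    (y : Fin m → K) (P : MvPolynomial (Option (Fin m)) k) :
    MvPolynomial.eval₂Hom (aeval (R := k) t : k[X] →+* K) y
        (MvPolynomial.optionEquivRight k (Fin m) P)
      = MvPolynomial.aeval (fun o : Option (Fin m) => o.elim t y) P := by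
  have h : (MvPolynomial.eval₂Hom (aeval (R := k) t : k[X] →+* K) y).comp
      (MvPolynomial.optionEquivRight k (Fin m) :
        MvPolynomial (Option (Fin m)) k →+* MvPolynomial (Fin m) k[X])
      = ((MvPolynomial.aeval (R := k) (fun o : Option (Fin m) => o.elim t y)) :
        MvPolynomial (Option (Fin m)) k →ₐ[k] K) := by
    apply MvPolynomial.ringHom_ext
    · intro c
      simp
    · intro o
      cases o with
      | none => simp
      | some l => simp
  exact DFunLike.congr_fun h P

theorem prp (p : ℕ) [Fact p.Prime] (K : Type) [Field K] [Infinite K] [Algebra (ZMod p) K]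
    [Algebra.EssFiniteType (ZMod p) K] :
    ∃ i : (ZMod p)[X] →+* K, Function.Injective i ∧ Nonempty (Pr (ZMod p)[X] K i) := by
  obtain ⟨n, x, hx, E, hE, hfin, hsep⟩ := fin_sep (ZMod p) K
  obtain _ | m := n
  · exfalso
    have hfe : Finite E := by
      have hsurj : Function.Surjective (fun rs : MvPolynomial (Fin 0) (ZMod p) × MvPolynomial (Fin 0) (ZMod p) =>
          (⟨MvPolynomial.aeval x rs.1 / MvPolynomial.aeval x rs.2, (hE _).2 ⟨rs.1, rs.2, rfl⟩⟩ : E)) := by
        rintro ⟨e, he⟩
        obtain ⟨r, s, rfl⟩ := (hE e).1 he
        exact ⟨(r, s), rfl⟩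
      have : Finite (MvPolynomial (Fin 0) (ZMod p)) :=
        Finite.of_equiv _ (MvPolynomial.isEmptyRingEquiv (ZMod p) (Fin 0)).symm.toEquiv
      exact Finite.of_surjective _ hsurj
    have : Finite K := Module.finite_of_finite E
    exact not_finite K
  · let t : K := x 0
    let y : Fin m → K := fun l => x l.succ
    let g : Option (Fin m) → K := fun o => o.elim t y
    have hg : g ∘ finSuccEquiv m = x := by
      funext l
      refine Fin.cases ?_ (fun l => ?_) l
      · simp [g, t]
      · simp [g, y]
    have hgi : AlgebraicIndependent (ZMod p) g :=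
      (algebraicIndependent_equiv' (finSuccEquiv m) hg).1 hx.1
    have hginj : Function.Injective (MvPolynomial.aeval (R := ZMod p) g) := hgi
    let i : (ZMod p)[X] →+* K := (aeval (R := ZMod p) t : (ZMod p)[X] →+* K)
    have hev : ∀ P : MvPolynomial (Option (Fin m)) (ZMod p),
        MvPolynomial.eval₂Hom i y (MvPolynomial.optionEquivRight (ZMod p) (Fin m) P)
          = MvPolynomial.aeval g P := fun P => ev_opt t y P
    have hev' : ∀ a : MvPolynomial (Fin m) (ZMod p)[X],
        MvPolynomial.eval₂Hom i y a
          = MvPolynomial.aeval g ((MvPolynomial.optionEquivRight (ZMod p) (Fin m)).symm a) := by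
      intro a
      rw [← hev, AlgEquiv.apply_symm_apply]
    have hinj : Function.Injective (MvPolynomial.eval₂Hom i y) := by
      intro a b h
      rw [hev', hev'] at h
      exact (MvPolynomial.optionEquivRight (ZMod p) (Fin m)).symm.injective (hginj h)
    have hren : ∀ r : MvPolynomial (Fin (m + 1)) (ZMod p),
        MvPolynomial.aeval x r = MvPolynomial.aeval g (MvPolynomial.rename (finSuccEquiv m) r) := by
      intro r
      rw [MvPolynomial.aeval_rename, hg]
    have hren' : ∀ r : MvPolynomial (Option (Fin m)) (ZMod p),
        MvPolynomial.aeval g r = MvPolynomial.aeval x (MvPolynomial.rename (finSuccEquiv m).symm r) := by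
      intro r
      rw [MvPolynomial.aeval_rename, ← hg]
      congr 2
      funext o
      simp
    refine ⟨i, ?_, ?_⟩
    · intro a b h
      have h' : MvPolynomial.eval₂Hom i y (MvPolynomial.C a)
          = MvPolynomial.eval₂Hom i y (MvPolynomial.C b) := by simpa using h
      exact MvPolynomial.C_injective _ _ (hinj h')
    · refine prg i y hinj E ?_ ?_
      · intro a
        rw [hev', hren', hE]
        exact ⟨MvPolynomial.rename (finSuccEquiv m).symm
          ((MvPolynomial.optionEquivRight (ZMod p) (Fin m)).symm a), 1, by rw [map_one, div_one]⟩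
      · intro e he
        obtain ⟨r, s, rfl⟩ := (hE e).1 he
        by_cases hs : s = 0
        · exact ⟨0, 1, one_ne_zero, by simp [hs]⟩
        have hs' : MvPolynomial.aeval x s ≠ 0 := by
          intro h
          rw [hren, ← hev] at h
          have h1 := hinj (h.trans (map_zero _).symm)
          rw [EmbeddingLike.map_eq_zero_iff] at h1
          exact hs ((MvPolynomial.rename_injective _ (finSuccEquiv m).injective) (by rw [h1, map_zero]))
        refine ⟨MvPolynomial.optionEquivRight (ZMod p) (Fin m) (MvPolynomial.rename (finSuccEquiv m) r),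
          MvPolynomial.optionEquivRight (ZMod p) (Fin m) (MvPolynomial.rename (finSuccEquiv m) s), ?_, ?_⟩
        · intro h
          rw [hren, ← hev, h, map_zero] at hs'
          exact hs' rfl
        · rw [hev, hev, ← hren, ← hren, div_mul_cancel₀ _ hs']

end Pool.Agent.H94.AB
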