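import Mathlib

set_option autoImplicit false

/-!
# [H94 AB SCP] Prime divisors of polynomial values: `𝔽_p[s]`

The same proof as for the integers (`H94/AB/SCZ.lean`).  `g₀ = G.eval 0`.  If `g₀ = 0`: `b = 0` and an irreducible `π` of degree greater than `B` and `deg D` (for example an irreducible factor argument, or `exists` an irreducible polynomial of every degree over a finite field: minimal polynomial of a generator of `GaloisField p n`; or: infinitely many irreducible polynomials and finitely many polynomials of degree `≤ max B (deg D)`).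
Otherwise let `T = D * ∏ π` over all nonzero polynomials of degree `≤ B` (a finite set) and `b = g₀ T c`: `G b = g₀ w`, `w = 1 + T c h` (`Polynomial.sub_dvd_eval_sub` in `(ZMod p)[X][X]`, evaluation in `(ZMod p)[X]`).  `w` is `0` or a unit (a nonzero constant) for finitely many `c` only: the polynomial `G` takes each value at finitely many elements of the infinite domain `(ZMod p)[X]` only, and there are finitely many values `0`, `u g₀` (`u` a nonzero constant).
So some `w` is neither `0` nor a unit: an irreducible factor `π` of `w` does not divide `T`, so it has degree `> B`, `π ∤ D`, `π ∣ G b`.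
-/

namespace Pool.Agent.H94.AB

open Polynomial

private theorem scp_fin (p : ℕ) [Fact p.Prime] (B : ℕ) :
    {f : (ZMod p)[X] | f.natDegree ≤ B}.Finite := by
  have h1 : Finite (degreeLT (ZMod p) (B + 1)) :=
    Finite.of_equiv _ (degreeLTEquiv (ZMod p) (B + 1)).toEquiv.symm
  refine (Set.toFinite ((degreeLT (ZMod p) (B + 1) : Submodule (ZMod p) (ZMod p)[X]) : Set (ZMod p)[X])).subset ?_
  intro f hf
  rw [SetLike.mem_coe, mem_degreeLT]
  exact lt_of_le_of_lt degree_le_natDegree (by exact_mod_cast Nat.lt_succ_of_le hf)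

private theorem scp_key (p : ℕ) [Fact p.Prime] (D : (ZMod p)[X]) (B : ℕ) (T w : (ZMod p)[X])
    (hT1 : D ∣ T) (hT2 : ∀ f : (ZMod p)[X], f ≠ 0 → f.natDegree ≤ B → f ∣ T) (hw : T ∣ w - 1)
    (hu : ¬ IsUnit w) :
    ∃ π : (ZMod p)[X], Irreducible π ∧ B < π.natDegree ∧ ¬ π ∣ D ∧ π ∣ w := by
  have h1 : ∃ π : (ZMod p)[X], Irreducible π ∧ π ∣ w := by
    by_cases h0 : w = 0
    · exact ⟨X, irreducible_X, by rw [h0]; exact dvd_zero _⟩
    · exact WfDvdMonoid.exists_irreducible_factor hu h0
  obtain ⟨π, hπ, hπw⟩ := h1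
  have hπT : ¬ π ∣ T := by
    intro h2
    have h3 : π ∣ 1 := by
      have h4 := dvd_sub hπw (h2.trans hw)
      rwa [sub_sub_cancel] at h4
    exact hπ.not_isUnit (isUnit_of_dvd_one h3)
  refine ⟨π, hπ, ?_, fun h => hπT (h.trans hT1), hπw⟩
  by_contra hB
  exact hπT (hT2 π hπ.ne_zero (not_lt.1 hB))

theorem scp (p : ℕ) [Fact p.Prime] (D : (ZMod p)[X]) (hD : D ≠ 0) (G : (ZMod p)[X][X])
    (hG : G.Monic) (hd : 0 < G.natDegree) (B : ℕ) :
    ∃ π : (ZMod p)[X], Irreducible π ∧ B < π.natDegree ∧ ¬ π ∣ D ∧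
      ∃ b : (ZMod p)[X], π ∣ G.eval b := by
  classical
  set T : (ZMod p)[X] := D * ∏ f ∈ (scp_fin p B).toFinset.erase 0, f with hT
  have hT0 : T ≠ 0 := by
    refine mul_ne_zero hD (Finset.prod_ne_zero_iff.2 fun f hf => ?_)
    exact (Finset.mem_erase.1 hf).1
  have hT1 : D ∣ T := Dvd.intro _ rfl
  have hT2 : ∀ f : (ZMod p)[X], f ≠ 0 → f.natDegree ≤ B → f ∣ T := by
    intro f hf hf2
    refine Dvd.dvd.mul_left (Finset.dvd_prod_of_mem (fun f => f) ?_) _
    rw [Finset.mem_erase, Set.Finite.mem_toFinset]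
    exact ⟨hf, hf2⟩
  by_cases h0 : G.eval 0 = 0
  · obtain ⟨π, h1, h2, h3, -⟩ := scp_key p D B T (1 + T * X) hT1 hT2 (by
      rw [add_sub_cancel_left]
      exact Dvd.intro _ rfl) (by
      intro hu
      have h1 := natDegree_eq_zero_of_isUnit hu
      rw [add_comm, ← C_1, natDegree_add_C, natDegree_mul_X hT0] at h1
      omega)
    exact ⟨π, h1, h2, h3, 0, by rw [h0]; exact dvd_zero _⟩
  · have hne : ∀ v : (ZMod p)[X], G - C v ≠ 0 := by
      intro v h
      have h1 : G = C v := sub_eq_zero.1 h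
      rw [h1, natDegree_C] at hd
      exact lt_irrefl _ hd
    have hex : ∃ c : (ZMod p)[X], (∏ r : ZMod p, (G - C (G.eval 0 * C r))).eval (G.eval 0 * T * c) ≠ 0 := by
      by_contra hcon
      have hcon2 : ∀ c : (ZMod p)[X],
          (∏ r : ZMod p, (G - C (G.eval 0 * C r))).eval (G.eval 0 * T * c) = 0 := by
        intro c
        by_contra hc
        exact hcon ⟨c, hc⟩
      refine (Finset.prod_ne_zero_iff.2 fun r _ => hne (G.eval 0 * C r))
        (eq_zero_of_infinite_isRoot (∏ r : ZMod p, (G - C (G.eval 0 * C r))) ?_)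
      have hinj : Function.Injective (fun c : (ZMod p)[X] => G.eval 0 * T * c) :=
        mul_right_injective₀ (mul_ne_zero h0 hT0)
      refine (Set.infinite_range_of_injective hinj).mono ?_
      rintro _ ⟨c, rfl⟩
      exact hcon2 c
    obtain ⟨c, hc⟩ := hex
    obtain ⟨h, hh⟩ := sub_dvd_eval_sub (G.eval 0 * T * c) 0 G
    have hw : G.eval (G.eval 0 * T * c) = G.eval 0 * (1 + T * c * h) := by
      linear_combination hh
    have hu : ¬ IsUnit (1 + T * c * h) := by
      intro hu
      obtain ⟨r, -, hr⟩ := isUnit_iff.1 hu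
      apply hc
      rw [eval_prod]
      refine Finset.prod_eq_zero (Finset.mem_univ r) ?_
      rw [eval_sub, eval_C, hw, hr, sub_self]
    obtain ⟨π, h1, h2, h3, h4⟩ := scp_key p D B T (1 + T * c * h) hT1 hT2 (by
      rw [add_sub_cancel_left, mul_assoc]
      exact Dvd.intro _ rfl) hu
    exact ⟨π, h1, h2, h3, G.eval 0 * T * c, by
      rw [hw]
      exact Dvd.dvd.mul_left h4 _⟩

end Pool.Agent.H94.AB
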