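import Pool.Agent.H94.AB.EMW
import Pool.Agent.H94.AB.PRP
import Pool.Agent.H94.AB.GEN
import Pool.Agent.H94.AB.SCP

set_option autoImplicit false

/-!
# [H94 AB EOP] Infinite finitely generated domains of odd characteristic

`K = FractionRing O` (infinite; `Algebra (ZMod p) K`, `ZMod.algebra`; `Algebra.EssFiniteType (ZMod p) K`).  `prp` gives `i : (ZMod p)[X] → K` and a presentation.  `i X = u / v` with `u, v ∈ O`, `v ≠ 0`.  `Y` = the images of finitely many generators of the ring `O`, and `i X`, `v⁻¹`.
`gen` gives `D`, `G`; `scp` gives `π` with `deg π > B`, `π ∤ D`, `π ∣ G b`; `emw` gives `k`, `r`, `j` with `r.φ (j f) = 0 ↔ π ∣ f`, so `κ` exists.  As in `H94/AB/EO0.lean` it gives an injective `ι : O → k⟦X⟧` (the elements with integral image are a subring which contains the generators).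
`φ = r.φ.comp ι` is surjective: its image is a subring of the finite field `k`, so a subfield (closed under inverses: `z⁻¹ = z ^ (q - 2)`).  `φ v ≠ 0` since `v⁻¹` has an integral image as well.  `r.φ (j X) = φ u / φ v` is in the image, and `k` is generated by `r.φ (j X)` as a ring (`r.φ.comp j` is surjective, and its values are polynomials in `r.φ (j X)` with coefficients in the prime field).
-/

namespace Pool.Agent.H94.AB

private theorem eop_ess (p : ℕ) [Fact p.Prime] (K : Type) [Field K] [A : Algebra ℤ K]
    [Algebra.EssFiniteType ℤ K] [Algebra (ZMod p) K] : Algebra.EssFiniteType (ZMod p) K := by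
  have h0 : A = Ring.toIntAlgebra K := Subsingleton.elim _ _
  subst h0
  exact Algebra.EssFiniteType.of_comp ℤ (ZMod p) K

private theorem eop_fac {O K R : Type} [CommRing O] [CommRing R] [IsDomain R] [Field K]
    [Algebra O K] (hinj : Function.Injective (algebraMap O K)) (κ : K →+* FractionRing R)
    (S : Finset O) (hS : Algebra.adjoin ℤ (S : Set O) = ⊤)
    (h : ∀ s ∈ S, ∃ x : R, algebraMap R (FractionRing R) x = κ (algebraMap O K s)) :
    ∃ ι : O →+* R, Function.Injective ι ∧
      ∀ o, algebraMap R (FractionRing R) (ι o) = κ (algebraMap O K o) := by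
  have hall : ∀ o : O, ∃ x : R, algebraMap R (FractionRing R) x = κ (algebraMap O K o) := by
    intro o
    have ho : o ∈ Algebra.adjoin ℤ (S : Set O) := by
      rw [hS]
      exact Algebra.mem_top
    induction ho using Algebra.adjoin_induction with
    | mem s hs => exact h s hs
    | algebraMap z =>
      refine ⟨(z : R), ?_⟩
      rw [eq_intCast, map_intCast, map_intCast, map_intCast]
    | add a b _ _ ha hb =>
      obtain ⟨x, hx⟩ := ha
      obtain ⟨y, hy⟩ := hb
      exact ⟨x + y, by rw [map_add, map_add, map_add, hx, hy]⟩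
    | mul a b _ _ ha hb =>
      obtain ⟨x, hx⟩ := ha
      obtain ⟨y, hy⟩ := hb
      exact ⟨x * y, by rw [map_mul, map_mul, map_mul, hx, hy]⟩
  choose ι hι using hall
  have halg : Function.Injective (algebraMap R (FractionRing R)) := IsFractionRing.injective R _
  refine ⟨{ toFun := ι
            map_one' := halg (by rw [hι, map_one, map_one, map_one])
            map_mul' := fun x y => halg (by rw [hι, map_mul, map_mul, map_mul, hι, hι])
            map_zero' := halg (by rw [hι, map_zero, map_zero, map_zero])
            map_add' := fun x y => halg (by rw [hι, map_add, map_add, map_add, hι, hι]) }, ?_, hι⟩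
  intro x y hxy
  have h1 : ι x = ι y := hxy
  have h2 : κ (algebraMap O K x) = κ (algebraMap O K y) := by rw [← hι, ← hι, h1]
  exact hinj (κ.injective h2)

theorem eop (p : ℕ) [Fact p.Prime] (hp : p ≠ 2) (O : Type) [CommRing O] [IsDomain O] [CharP O p]
    [Infinite O] [Algebra.FiniteType ℤ O] (B : ℕ) :
    ∃ (F : Type) (_ : Field F) (_ : Finite F) (φ : O →+* F), Function.Surjective φ ∧
      B < Nat.card F ∧ Lf O F φ := by
  classical
  have hinj : Function.Injective (algebraMap O (FractionRing O)) := IsFractionRing.injective O _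
  have _ : CharP (FractionRing O) p := charP_of_injective_algebraMap hinj p
  have _ : Infinite (FractionRing O) := Infinite.of_injective _ hinj
  let _ : Algebra (ZMod p) (FractionRing O) := ZMod.algebra (FractionRing O) p
  have _ : Algebra.EssFiniteType O (FractionRing O) :=
    Algebra.EssFiniteType.of_isLocalization (FractionRing O) (nonZeroDivisors O)
  have _ : Algebra.EssFiniteType ℤ (FractionRing O) := Algebra.EssFiniteType.comp ℤ O _
  have _ : Algebra.EssFiniteType (ZMod p) (FractionRing O) := eop_ess p _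
  obtain ⟨i, hi, ⟨P⟩⟩ := prp p (FractionRing O)
  have _ : Countable (Polynomial (ZMod p)) := by
    rw [← Cardinal.mk_le_aleph0_iff]
    refine Polynomial.cardinalMk_le_max.trans ?_
    rw [max_le_iff]
    exact ⟨Cardinal.mk_le_aleph0_iff.2 inferInstance, le_rfl⟩
  obtain ⟨S, hS⟩ := (Algebra.FiniteType.out : (⊤ : Subalgebra ℤ O).FG)
  obtain ⟨u, v, hv, huv⟩ := IsFractionRing.div_surjective (A := O) (i Polynomial.X)
  have hv0 : algebraMap O (FractionRing O) v ≠ 0 := by
    intro h
    rw [← map_zero (algebraMap O (FractionRing O))] at h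
    exact nonZeroDivisors.ne_zero hv (hinj h)
  obtain ⟨D, G, hD, hG, hd, H⟩ := gen P
    (insert ((algebraMap O (FractionRing O) v)⁻¹) (S.image (algebraMap O (FractionRing O))))
  obtain ⟨π, hπ, hBπ, hπD, b, hb⟩ := scp p D hD G hG hd B
  obtain ⟨k, _, _, r, j, hj, hrj, hsur, hcard⟩ := emw p hp π hπ
  obtain ⟨κ, hκi, hκ⟩ := H (PowerSeries k) k r j hj
    (fun h => hπD ((hrj D).1 h)) ⟨b, (hrj _).2 hb⟩
  obtain ⟨ι, hι, hικ⟩ := eop_fac hinj κ S hS fun s hs => hκ _
    (Finset.mem_insert_of_mem (Finset.mem_image_of_mem _ hs))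
  obtain ⟨x, hx⟩ := hκ _ (Finset.mem_insert_self _ _)
  have halg : Function.Injective (algebraMap (PowerSeries k) (FractionRing (PowerSeries k))) :=
    IsFractionRing.injective _ _
  have hκv : κ (algebraMap O (FractionRing O) v) ≠ 0 := by
    intro h
    exact hv0 (κ.injective (by rw [h, map_zero]))
  have h1 : x * ι v = 1 := by
    apply halg
    rw [map_mul, hx, hικ, map_one, map_inv₀, inv_mul_cancel₀ hκv]
  have h2 : j Polynomial.X * ι v = ι u := by
    apply halg
    rw [map_mul, ← hκi, ← huv, hικ, hικ, map_div₀, div_mul_cancel₀ _ hκv]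
  obtain ⟨φ, hφ⟩ : ∃ φ : O →+* k, φ = r.φ.comp ι := ⟨_, rfl⟩
  have hφι : ∀ o, φ o = r.φ (ι o) := by
    intro o
    rw [hφ]
    rfl
  have h3 : r.φ x * φ v = 1 := by rw [hφι, ← map_mul, h1, map_one]
  have h4 : r.φ (j Polynomial.X) * φ v = φ u := by rw [hφι, hφι, ← map_mul, h2]
  have hφv : φ v ≠ 0 := right_ne_zero_of_mul_eq_one h3
  have hinv : (φ v)⁻¹ ∈ φ.range := by
    have _ : Fintype k := Fintype.ofFinite k
    have h5 := FiniteField.pow_card_sub_one_eq_one (φ v) hφv
    have h6 : 1 < Fintype.card k := Fintype.one_lt_card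
    have h7 : (φ v)⁻¹ = (φ v) ^ (Fintype.card k - 2) := by
      rw [inv_eq_iff_eq_inv, eq_comm, inv_eq_of_mul_eq_one_left]
      rw [← pow_succ', show Fintype.card k - 2 + 1 = Fintype.card k - 1 by omega, h5]
    rw [h7]
    exact pow_mem (φ.mem_range_self v) _
  have hX : r.φ (j Polynomial.X) ∈ φ.range := by
    have h5 : r.φ (j Polynomial.X) = φ u * (φ v)⁻¹ := by
      rw [← h4, mul_inv_cancel_right₀ hφv]
    rw [h5]
    exact mul_mem (φ.mem_range_self u) hinv
  have hφs : Function.Surjective φ := by
    intro z
    obtain ⟨f, rfl⟩ := hsur z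
    have h5 : ∀ f, r.φ (j f) ∈ φ.range := by
      intro f
      induction f using Polynomial.induction_on with
      | C a =>
        obtain ⟨n, rfl⟩ := ZMod.natCast_zmod_surjective a
        rw [map_natCast, map_natCast, map_natCast]
        exact natCast_mem _ n
      | add f g hf hg =>
        rw [map_add, map_add]
        exact add_mem hf hg
      | monomial n a h =>
        rw [pow_succ, ← mul_assoc, map_mul, map_mul]
        exact mul_mem h hX
    exact h5 f
  refine ⟨k, inferInstance, inferInstance, φ, hφs, hBπ.trans hcard, PowerSeries k, inferInstance,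
    inferInstance, inferInstance, r.toRd, ι, hι, hφ⟩

end Pool.Agent.H94.AB
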