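import Pool.Agent.H94.AB.Defs

set_option autoImplicit false

/-!
# [H94 AB HW] Power series over a field

`φ = PowerSeries.constantCoeff`, `ϖ = PowerSeries.X`: `PowerSeries.X_dvd_iff`, `PowerSeries.isUnit_iff_constantCoeff`.
* `hens`: the `HenselianRing` instance from `IsAdicComplete (Ideal.span {X}) k⟦X⟧` (`Mathlib/RingTheory/AdicCompletion/Completeness.lean`, `Mathlib/RingTheory/Henselian.lean`): `f` monic, `f.eval a ∈ span {X}`, `f.derivative.eval a` a unit modulo `X`.
* `sq`: `hens` for `X ^ 2 - C x` at `C s`, `s ^ 2 = φ x`, derivative `2 s ≠ 0`.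
* `unc`: `k⟦X⟧` has an injection from `ℕ → Bool`: `b ↦ PowerSeries.mk fun i => if b i then 1 else 0`; `ℕ → Bool` is uncountable.
-/

namespace Pool.Agent.H94.AB

open Polynomial

private theorem hw_ker (k : Type) [Field k] (x : PowerSeries k) :
    PowerSeries.constantCoeff x = 0 ↔ PowerSeries.X ∣ x := PowerSeries.X_dvd_iff.symm

private theorem hw_unit (k : Type) [Field k] (x : PowerSeries k)
    (hx : PowerSeries.constantCoeff x ≠ 0) : IsUnit x := by
  rw [PowerSeries.isUnit_iff_constantCoeff]
  exact isUnit_iff_ne_zero.2 hx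

private theorem hw_hens (k : Type) [Field k] (f : (PowerSeries k)[X]) (hf : f.Monic)
    (a : PowerSeries k) (h1 : PowerSeries.constantCoeff (f.eval a) = 0)
    (h2 : PowerSeries.constantCoeff ((derivative f).eval a) ≠ 0) :
    ∃ x : PowerSeries k, f.eval x = 0 ∧
      PowerSeries.constantCoeff x = PowerSeries.constantCoeff a := by
  obtain ⟨x, hx, hxa⟩ := HenselianRing.is_henselian (I := Ideal.span {(PowerSeries.X : PowerSeries k)})
    f hf a (by
      rw [Ideal.mem_span_singleton, ← hw_ker]
      exact h1)
    ((hw_unit k _ h2).map _)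
  refine ⟨x, hx, ?_⟩
  rw [Ideal.mem_span_singleton, ← hw_ker, map_sub, sub_eq_zero] at hxa
  exact hxa

theorem hdw (k : Type) [Field k] (h2 : (2 : k) ≠ 0) :
    ∃ r : Hd (PowerSeries k) k, r.φ = PowerSeries.constantCoeff := by
  classical
  have hsq : ∀ x : PowerSeries k, PowerSeries.constantCoeff x ≠ 0 →
      IsSquare (PowerSeries.constantCoeff x) → IsSquare x := by
    intro x hx hs
    obtain ⟨s, hs⟩ := hs
    have hs0 : s ≠ 0 := by
      intro h
      rw [h, mul_zero] at hs
      exact hx hs
    obtain ⟨z, hz, -⟩ := hw_hens k ((X : (PowerSeries k)[X]) ^ 2 - C x)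
      (monic_X_pow_sub_C _ two_ne_zero) (PowerSeries.C s) (by
        rw [eval_sub, eval_pow, eval_X, eval_C, map_sub, map_pow, PowerSeries.constantCoeff_C, hs]
        ring) (by
        rw [derivative_sub, derivative_X_pow, derivative_C, sub_zero, eval_mul, eval_C, eval_pow,
          eval_X, map_mul, map_pow, PowerSeries.constantCoeff_C]
        refine mul_ne_zero ?_ (pow_ne_zero _ hs0)
        rw [map_natCast]
        exact_mod_cast h2)
    rw [eval_sub, eval_pow, eval_X, eval_C] at hz
    exact ⟨z, by linear_combination -hz⟩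
  have hunc : Uncountable (PowerSeries k) := by
    have hinj : Function.Injective (fun b : ℕ → Bool => (PowerSeries.mk fun i => if b i then (1 : k) else 0)) := by
      intro b b' h
      funext i
      have h3 := congrArg (PowerSeries.coeff i) h
      simp only [PowerSeries.coeff_mk] at h3
      rcases hb : b i with _ | _ <;> rcases hb' : b' i with _ | _ <;> rw [hb, hb'] at h3 <;> simp at h3 ⊢
    have hb : Uncountable (ℕ → Bool) := by
      rw [← not_countable_iff]
      intro h
      obtain ⟨f, hf⟩ := exists_surjective_nat (ℕ → Bool)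
      obtain ⟨i, hi⟩ := hf (fun n => !(f n n))
      have := congrFun hi i
      simp at this
    exact hinj.uncountable
  exact ⟨{ φ := PowerSeries.constantCoeff
           ϖ := PowerSeries.X
           ker := hw_ker k
           unit := hw_unit k
           sq := hsq
           two := h2
           ne := PowerSeries.X_ne_zero
           hens := hw_hens k
           unc := hunc }, rfl⟩

end Pool.Agent.H94.AB
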