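import Pool.Agent.H94.AB.Defs
import Pool.Agent.H94.AA.PAD

set_option autoImplicit false

/-!
# [H94 AB HZ] The `p`-adic integers

`pad` of `H94/AA/PAD.lean` gives `r : Rd ℤ_[p] (ZMod p)` with `r.φ = PadicInt.toZMod`; `r.ϖ ≠ 0`: otherwise `φ` would be injective (`r.ker`), but `φ (p : ℤ_[p]) = 0` and `(p : ℤ_[p]) ≠ 0`.
* `hens`: `hensels_lemma` (`PadicInt`: `‖f.eval a‖ < ‖f.derivative.eval a‖ ^ 2`, gives a root `z` with `‖z - a‖ < ‖f.derivative.eval a‖`, so `toZMod z = toZMod a`), or the `HenselianRing` instance from `IsAdicComplete (maximalIdeal ℤ_[p]) ℤ_[p]` (`Mathlib/NumberTheory/Padics/PadicIntegers.lean`, `Mathlib/RingTheory/Henselian.lean`).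
* `unc`: `ℤ_[p]` is uncountable: a nonempty complete metric space without isolated points (`Perfect.exists_nat_bool_injection` of `Mathlib/Topology/Perfect.lean` or `Mathlib/Topology/MetricSpace/Perfect.lean`: an injection from `ℕ → Bool`); or directly an injection of `ℕ → Bool` (or of `Set ℕ`) into `ℤ_[p]`, `b ↦ ∑ b i p ^ i`
  (with `PadicInt.ofIntSeq`/summability in the complete ring or limits of Cauchy sequences; two sequences which first differ at `i` have images whose difference has norm `p ^ (-i)`); `Cardinal`: `ℕ → Bool` is uncountable (`Cardinal.cantor`, or the instance).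
-/

namespace Pool.Agent.H94.AB

open Polynomial

private theorem hz_mem (p : ℕ) [Fact p.Prime] (x : ℤ_[p]) :
    x ∈ IsLocalRing.maximalIdeal ℤ_[p] ↔ PadicInt.toZMod x = 0 := by
  rw [← RingHom.mem_ker, PadicInt.ker_toZMod]

private theorem hz_hens (p : ℕ) [Fact p.Prime] (f : ℤ_[p][X]) (hf : f.Monic)
    (a : ℤ_[p]) (h1 : PadicInt.toZMod (f.eval a) = 0)
    (h2 : PadicInt.toZMod ((derivative f).eval a) ≠ 0) :
    ∃ x : ℤ_[p], f.eval x = 0 ∧ PadicInt.toZMod x = PadicInt.toZMod a := by
  have hu : IsUnit ((derivative f).eval a) := by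
    by_contra hu
    exact h2 ((hz_mem p _).1 ((IsLocalRing.mem_maximalIdeal _).2 hu))
  obtain ⟨x, hx, hxa⟩ := HenselianRing.is_henselian (I := IsLocalRing.maximalIdeal ℤ_[p])
    f hf a ((hz_mem p _).2 h1) (hu.map _)
  refine ⟨x, hx, ?_⟩
  rw [hz_mem, map_sub, sub_eq_zero] at hxa
  exact hxa

private theorem hz_unc (p : ℕ) [Fact p.Prime] : Uncountable ℤ_[p] := by
  have hp0 : (p : ℤ_[p]) ≠ 0 := by
    have := (Fact.out : p.Prime).ne_zero
    exact_mod_cast this
  have hperf : PerfectSpace ℤ_[p] := by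
    rw [perfectSpace_iff_forall_not_isolated]
    intro x
    have h1 : Filter.Tendsto (fun n : ℕ => x + (p : ℤ_[p]) ^ n) Filter.atTop (nhdsWithin x {x}ᶜ) := by
      rw [tendsto_nhdsWithin_iff]
      constructor
      · have h2 : Filter.Tendsto (fun n : ℕ => (p : ℤ_[p]) ^ n) Filter.atTop (nhds 0) :=
          tendsto_pow_atTop_nhds_zero_of_norm_lt_one (by
            rw [PadicInt.norm_p]
            exact inv_lt_one_of_one_lt₀ (by exact_mod_cast (Fact.out : p.Prime).one_lt))
        have h3 := h2.const_add x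
        rw [add_zero] at h3
        exact h3
      · refine Filter.Eventually.of_forall fun n => ?_
        simp only [Set.mem_compl_iff, Set.mem_singleton_iff, add_eq_left]
        exact pow_ne_zero _ hp0
    exact h1.neBot
  have hb : Uncountable (ℕ → Bool) := by
    rw [← not_countable_iff]
    intro h
    obtain ⟨f, hf⟩ := exists_surjective_nat (ℕ → Bool)
    obtain ⟨i, hi⟩ := hf (fun n => !(f n n))
    have := congrFun hi i
    simp at this
  obtain ⟨f, -, -, hf⟩ := (PerfectSpace.univ_perfect (α := ℤ_[p])).exists_nat_bool_injection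
    Set.univ_nonempty
  exact hf.uncountable

theorem hdz (p : ℕ) [Fact p.Prime] (hp : p ≠ 2) : Nonempty (Hd ℤ_[p] (ZMod p)) := by
  obtain ⟨r, hr⟩ := H94.AA.pad p hp
  refine ⟨{ r with
    ne := ?_
    hens := ?_
    unc := hz_unc p }⟩
  · intro h
    have h1 := r.ker (p : ℤ_[p])
    rw [hr, h, zero_dvd_iff] at h1
    have h2 : (p : ℤ_[p]) = 0 := h1.1 (by rw [map_natCast, ZMod.natCast_self])
    have := (Fact.out : p.Prime).ne_zero
    exact this (by exact_mod_cast h2)
  · rw [hr]
    exact hz_hens p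

end Pool.Agent.H94.AB
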