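import Mathlib

set_option autoImplicit false

/-!
# [H94 AB IND] Algebraically independent elements with given reductions

Induction on `n`.  `n = 0`: `MvPolynomial (Fin 0) Z` is `Z` (`MvPolynomial.isEmptyRingEquiv`), `j` is injective.
Step: let `ξ` be given for `a ∘ castSucc` (or `a ∘ succ`); `S = MvPolynomial (Fin n) Z` is countable (`Z` countable), it is mapped injectively to `R` by `eval₂Hom j ξ`, `Algebra S R` by this map; the set of the elements of `R` which are algebraic over `S` is countable (`Algebraic.countable`, `Mathlib/Algebra/AlgebraicCard.lean`; needs no zero divisors).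
The set `{j (a n) + ϖ * y | y : R}` is uncountable (`ϖ ≠ 0`, `R` a domain: injective image of `R`), so it has an element `ξ'` which is not algebraic over `S`.  Then `eval₂Hom j (Fin.snoc ξ ξ')` is injective (`MvPolynomial.finSuccEquiv` or `AlgebraicIndependent` lemmas: `algebraicIndependent_fin_succ..`, `AlgebraicIndependent.option_iff`, `MvPolynomial.optionEquivLeft`; after an equivalence of the index sets).
-/

namespace Pool.Agent.H94.AB

/-- Every coset of a nonzero principal ideal contains an element which is not algebraic over a countable subalgebra. -/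
private theorem exists_transc {Z R : Type} [CommRing Z] [CommRing R] [IsDomain R] [Uncountable R]
    [Algebra Z R] (S : Subalgebra Z R) (hS : Countable S) {ϖ : R} (hϖ : ϖ ≠ 0) (b : R) :
    ∃ ξ : R, ϖ ∣ ξ - b ∧ Transcendental S ξ := by
  by_contra hcon
  push Not at hcon
  have hc : Set.Countable {x : R | IsAlgebraic S x} := Algebraic.countable S R
  have hinj : Function.Injective (fun y : R => b + ϖ * y) := by
    intro y y' h
    have h' : b + ϖ * y = b + ϖ * y' := h
    exact mul_left_cancel₀ hϖ (add_left_cancel h')
  have hr : Set.range (fun y : R => b + ϖ * y) ⊆ {x : R | IsAlgebraic S x} := by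
    rintro _ ⟨y, rfl⟩
    have := hcon (b + ϖ * y) ⟨y, by ring⟩
    simpa [Transcendental] using this
  have h1 : Set.Countable (Set.range (fun y : R => b + ϖ * y)) := hc.mono hr
  have h2 : Countable R := by
    have := h1.to_subtype
    exact (Set.rangeFactorization_injective.2 hinj).countable
  exact not_countable_iff.2 inferInstance h2

theorem indep {Z R : Type} [CommRing Z] [CommRing R] [IsDomain R] [Countable Z] [Uncountable R]
    (j : Z →+* R) (hj : Function.Injective j) {ϖ : R} (hϖ : ϖ ≠ 0) {n : ℕ} (a : Fin n → Z) :
    ∃ ξ : Fin n → R, (∀ i, ϖ ∣ ξ i - j (a i)) ∧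
      Function.Injective (MvPolynomial.eval₂Hom j ξ) := by
  let _ : Algebra Z R := j.toAlgebra
  have key : ∃ ξ : Fin n → R, (∀ i, ϖ ∣ ξ i - j (a i)) ∧ AlgebraicIndependent Z ξ := by
    induction n with
    | zero =>
      refine ⟨Fin.elim0, fun i => i.elim0, ?_⟩
      exact algebraicIndependent_empty_type_iff.2 hj
    | succ n ih =>
      obtain ⟨ξ, h1, h2⟩ := ih (fun i => a i.succ)
      have hS : Countable (Algebra.adjoin Z (Set.range ξ)) := by
        rw [Algebra.adjoin_range_eq_range_aeval]
        have : Countable (MvPolynomial (Fin n) Z) := by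
          rw [← Cardinal.mk_le_aleph0_iff]
          refine (MvPolynomial.cardinalMk_le_max (σ := Fin n) (R := Z)).trans ?_
          simp
        exact (Set.countable_range (MvPolynomial.aeval (R := Z) ξ)).to_subtype
      obtain ⟨x, hx1, hx2⟩ := exists_transc (Algebra.adjoin Z (Set.range ξ)) hS hϖ (j (a 0))
      refine ⟨Fin.cons x ξ, ?_, ?_⟩
      · intro i
        refine Fin.cases ?_ (fun i => ?_) i
        · simpa using hx1
        · simpa using h1 i
      · have h3 := (h2.option_iff_transcendental x).2 hx2
        refine (algebraicIndependent_equiv' (finSuccEquiv n) ?_).2 h3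
        funext i
        refine Fin.cases ?_ (fun i => ?_) i
        · simp
        · simp
  obtain ⟨ξ, h1, h2⟩ := key
  exact ⟨ξ, h1, h2⟩

end Pool.Agent.H94.AB
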