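import Pool.Agent.H94.AB.Defs

set_option autoImplicit false

/-!
# [H94 AB PRG] A presentation from a separable extension

`S = MvPolynomial (Fin n) Z`, `ev = eval₂Hom i x : S → K` injective, `E` the field of the fractions `ev a / ev b`.  `K` is finite and separable over `E`: `K = E(θ₀)` (`Field.exists_primitive_element`), `μ₀ = minpoly E θ₀`, of degree `m ≥ 1`.
* There is `b ∈ S`, `b ≠ 0`, such that `ev b * (coefficient)` is in `ev S` for all coefficients of `μ₀` (finitely many).  `θ = ev b * θ₀`: its minimal polynomial is `μ = ∑ c_l b ^ (m - l) X ^ l`, with coefficients in `ev S`, monic (`minpoly` of `θ`: `K = E(θ)` as well, so it has degree `m`; or `IsIntegral`/`integralNormalization`; or show directly that a monic polynomial over `S` of degree `m` kills `θ` and that `minpoly E θ` has degree `m`, so it equals the image).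
  `G ∈ S[X]`: monic with image `μ` (lift the coefficients, leading coefficient `1`).
* `min`: `P(θ) = 0` implies `μ ∣ P` over `E`, `P = μ Q`, `Q ∈ E[X]`; `q` a common denominator of the coefficients of `Q`: `C q * P = G * Q'` in `S[X]` (the map `S[X] → E[X]` is injective).
* `rep`: `y = P₀(θ)` with `P₀ ∈ E[X]` (`K = E(θ)`, algebraic: `IntermediateField.adjoin_simple...`, `Algebra.adjoin`), common denominator.
* `sep`: `μ` is separable: `u μ + v μ' = 1` in `E[X]` (`Polynomial.Separable`), common denominator `D` of `u`, `v`; `derivative` commutes with `map`.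
-/

namespace Pool.Agent.H94.AB

open Polynomial

/-- common denominator of the coefficients -/
private theorem prg_den {S E : Type} [CommRing S] [IsDomain S] [Field E] (j : S →+* E)
    (hj : Function.Injective j)
    (hs : ∀ e : E, ∃ a b : S, b ≠ 0 ∧ e * j b = j a) (P : E[X]) :
    ∃ d : S, d ≠ 0 ∧ ∃ Q : S[X], Q.map j = C (j d) * P := by
  induction P using Polynomial.induction_on' with
  | add p q hp hq =>
    obtain ⟨d1, h1, Q1, e1⟩ := hp
    obtain ⟨d2, h2, Q2, e2⟩ := hq
    refine ⟨d1 * d2, mul_ne_zero h1 h2, C d2 * Q1 + C d1 * Q2, ?_⟩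
    rw [Polynomial.map_add, Polynomial.map_mul, Polynomial.map_mul, e1, e2, Polynomial.map_C,
      Polynomial.map_C, map_mul, C_mul]
    ring
  | monomial m e =>
    obtain ⟨a, b, hb, h⟩ := hs e
    refine ⟨b, hb, monomial m a, ?_⟩
    rw [Polynomial.map_monomial, ← h, C_mul_monomial, mul_comm]

theorem prg {Z K : Type} [CommRing Z] [IsDomain Z] [Field K] (i : Z →+* K) {n : ℕ}
    (x : Fin n → K) (hx : Function.Injective (MvPolynomial.eval₂Hom i x)) (E : Subfield K)
    (hE : ∀ a, MvPolynomial.eval₂Hom i x a ∈ E)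
    (hE' : ∀ e ∈ E, ∃ a b, b ≠ 0 ∧ e * MvPolynomial.eval₂Hom i x b = MvPolynomial.eval₂Hom i x a)
    [FiniteDimensional E K] [Algebra.IsSeparable E K] : Nonempty (Pr Z K i) := by
  classical
  set ev := MvPolynomial.eval₂Hom i x with hev
  let j : MvPolynomial (Fin n) Z →+* E := ev.codRestrict E hE
  have hjv : ∀ a, ((j a : E) : K) = ev a := fun a => rfl
  have hcomp : (algebraMap E K).comp j = ev := RingHom.ext fun a => rfl
  have hj : Function.Injective j := by
    intro a b h
    apply hx
    have := congrArg (fun e : E => (e : K)) h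
    exact this
  have hs : ∀ e : E, ∃ a b : MvPolynomial (Fin n) Z, b ≠ 0 ∧ e * j b = j a := by
    intro e
    obtain ⟨a, b, hb, h⟩ := hE' e e.2
    exact ⟨a, b, hb, Subtype.ext h⟩
  have den := prg_den j hj hs
  have hmapinj : Function.Injective (Polynomial.map j) := Polynomial.map_injective j hj
  have hevm : ∀ (P : (MvPolynomial (Fin n) Z)[X]) (t : K),
      P.eval₂ ev t = aeval t (P.map j) := by
    intro P t
    rw [aeval_def, eval₂_map, hcomp]
  obtain ⟨θ₀, hθ₀⟩ := Field.exists_primitive_element E K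
  have hint0 : IsIntegral E θ₀ := Algebra.IsIntegral.isIntegral θ₀
  obtain ⟨b, hb, Q0, hQ0⟩ := den (minpoly E θ₀)
  have hjb : j b ≠ 0 := by
    intro h
    exact hb (hj (by rw [h, map_zero]))
  have hevb : ev b ≠ 0 := by
    intro h
    exact hb (hx (by rw [h, map_zero]))
  set θ : K := ev b * θ₀ with hθ
  have htop : IntermediateField.adjoin E {θ} = ⊤ := by
    rw [eq_top_iff, ← hθ₀, IntermediateField.adjoin_simple_le_iff]
    have h1 : θ ∈ IntermediateField.adjoin E {θ} := IntermediateField.mem_adjoin_simple_self E θ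
    have h2 : (algebraMap E K (j b)⁻¹) ∈ IntermediateField.adjoin E {θ} :=
      IntermediateField.algebraMap_mem _ _
    have h3 : θ₀ = algebraMap E K (j b)⁻¹ * θ := by
      have : algebraMap E K (j b)⁻¹ = (ev b)⁻¹ := by
        rw [map_inv₀]; rfl
      rw [this, hθ, inv_mul_cancel_left₀ hevb]
    rw [h3]
    exact mul_mem h2 h1
  have hint : IsIntegral E θ := Algebra.IsIntegral.isIntegral θ
  set μ := scaleRoots (minpoly E θ₀) (j b) with hμ
  have hμmon : μ.Monic := (monic_scaleRoots_iff _).2 (minpoly.monic hint0)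
  have hμroot : aeval θ μ = 0 := by
    have h := scaleRoots_aeval_eq_zero (p := minpoly E θ₀) (a := θ₀) (r := j b)
      (minpoly.aeval E θ₀)
    exact h
  have hdeg : μ.natDegree = (minpoly E θ).natDegree := by
    rw [hμ, natDegree_scaleRoots, ← IntermediateField.adjoin.finrank hint,
      ← IntermediateField.adjoin.finrank hint0, htop, hθ₀]
  have hμmin : minpoly E θ = μ := by
    apply (eq_of_monic_of_dvd_of_natDegree_le (minpoly.monic hint) hμmon
      (minpoly.dvd E θ hμroot) _).symm
    exact hdeg.le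
  -- lift
  have hlift : μ ∈ lifts j := by
    rw [lifts_iff_coeff_lifts]
    intro k
    rw [hμ, coeff_scaleRoots]
    rcases lt_trichotomy k (minpoly E θ₀).natDegree with h | h | h
    · refine ⟨Q0.coeff k * b ^ ((minpoly E θ₀).natDegree - k - 1), ?_⟩
      have h1 : j (Q0.coeff k) = j b * (minpoly E θ₀).coeff k := by
        rw [← coeff_map, hQ0, coeff_C_mul]
      have h2 : (minpoly E θ₀).natDegree - k = (minpoly E θ₀).natDegree - k - 1 + 1 := by omega
      rw [map_mul, map_pow, h1]
      conv_rhs => rw [h2]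
      rw [pow_succ]
      ring
    · refine ⟨1, ?_⟩
      rw [h, Nat.sub_self, pow_zero, mul_one, map_one]
      exact (minpoly.monic hint0).symm
    · refine ⟨0, ?_⟩
      rw [coeff_eq_zero_of_natDegree_lt h, zero_mul, map_zero]
  obtain ⟨G, hG, -, hGm⟩ := lifts_and_natDegree_eq_and_monic hlift hμmon
  refine ⟨⟨n, x, hx, θ, G, hGm, ?_, ?_, ?_, ?_⟩⟩
  · rw [← hev, hevm, hG, hμroot]
  · intro P hP
    rw [← hev, hevm] at hP
    have hd : μ ∣ P.map j := by
      rw [← hμmin]; exact minpoly.dvd E θ hP
    obtain ⟨Q, hQ⟩ := hd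
    obtain ⟨q, hq, Q', hQ'⟩ := den Q
    refine ⟨q, hq, Q', hmapinj ?_⟩
    show (C q * P).map j = (G * Q').map j
    rw [Polynomial.map_mul, Polynomial.map_mul, map_C, hQ, hG, hQ']
    ring
  · intro y
    have hy : y ∈ IntermediateField.adjoin E {θ} := by rw [htop]; trivial
    rw [← IntermediateField.mem_toSubalgebra,
      IntermediateField.adjoin_simple_toSubalgebra_of_isAlgebraic hint.isAlgebraic,
      Algebra.adjoin_singleton_eq_range_aeval] at hy
    obtain ⟨P, hP⟩ := hy
    obtain ⟨q, hq, Q, hQ⟩ := den P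
    refine ⟨Q, q, hq, ?_⟩
    rw [← hev, hevm, hQ, map_mul, aeval_C]
    have h1 : algebraMap E K (j q) = ev q := rfl
    have h2 : aeval θ P = y := hP
    rw [h1, h2, mul_comm]
  · have hsep : (minpoly E θ).Separable := Algebra.IsSeparable.isSeparable E θ
    rw [hμmin] at hsep
    obtain ⟨u, v, huv⟩ := hsep
    obtain ⟨d1, hd1, U, hU⟩ := den u
    obtain ⟨d2, hd2, V, hV⟩ := den v
    refine ⟨C d2 * U, C d1 * V, d1 * d2, mul_ne_zero hd1 hd2, hmapinj ?_⟩
    show (C d2 * U * G + C d1 * V * derivative G).map j = (C (d1 * d2)).map j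
    rw [Polynomial.map_add, Polynomial.map_mul, Polynomial.map_mul, Polynomial.map_mul,
      Polynomial.map_mul, ← derivative_map, hG, hU, hV, map_C, map_C, map_C, map_mul, C_mul]
    linear_combination (C (j d1) * C (j d2)) * huv

end Pool.Agent.H94.AB
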