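import Pool.Agent.H94.AA.Defs

set_option autoImplicit false

/-!
# [H94 AB PTS] Points over `K(t)`, `K` the fraction field of `O`, from a ring that contains `O`

`x`, `y` in `K(t)` with `y ^ 2 = x (x - A) (x - B)`, `A`, `B ∈ O[X]`.  There are `a, b, c ∈ O[X]`, `c ≠ 0`, with `x = a / c`, `y = b / c` in `RatFunc K` (`RatFunc.num_div_denom`, common denominator; clear the denominators of the coefficients with `IsLocalization.integerNormalization`, see `rat` in `H94/AA/PAD.lean`, the case `O = ℤ`, whose proof can be copied).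
`X = a c`, `Y = b c ^ 2`, `Z = c`: `Y ^ 2 = X (X - A Z ^ 2) (X - B Z ^ 2)` in `O[X]` (the map `O[X] → RatFunc K` is injective), map it to `R[X]` with `ι` (injective): `Y = 0`, so `b = 0` and `y = 0`.
-/

namespace Pool.Agent.H94.AB

open Polynomial

private theorem frac {O K : Type} [CommRing O] [IsDomain O] [Field K] [Algebra O K]
    [IsFractionRing O K] (x : RatFunc K) : ∃ n d : O[X], d ≠ 0 ∧
    x * algebraMap K[X] (RatFunc K) (d.map (algebraMap O K)) =
      algebraMap K[X] (RatFunc K) (n.map (algebraMap O K)) := by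
  have key : ∀ f : K[X], ∃ (b : O) (g : O[X]), b ≠ 0 ∧
      g.map (algebraMap O K) = C (algebraMap O K b) * f := by
    intro f
    obtain ⟨b, hbm, hb⟩ := IsLocalization.integerNormalization_spec (nonZeroDivisors O) f
    refine ⟨b, IsLocalization.integerNormalization (nonZeroDivisors O) f,
      nonZeroDivisors.ne_zero hbm, ?_⟩
    rw [hb]
    ext i
    simp [Algebra.smul_def]
  obtain ⟨b1, g1, hb1, hg1⟩ := key (RatFunc.num x)
  obtain ⟨b2, g2, hb2, hg2⟩ := key (RatFunc.denom x)
  have hden : RatFunc.denom x ≠ 0 := RatFunc.denom_ne_zero x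
  have hden' : algebraMap K[X] (RatFunc K) (RatFunc.denom x) ≠ 0 := by
    intro h
    apply hden
    exact (map_eq_zero_iff _ (IsFractionRing.injective K[X] (RatFunc K))).mp h
  refine ⟨C b2 * g1, C b1 * g2, ?_, ?_⟩
  · refine mul_ne_zero (by simpa using hb1) ?_
    intro h
    rw [h, Polynomial.map_zero] at hg2
    have : C (algebraMap O K b2) * RatFunc.denom x ≠ 0 :=
      mul_ne_zero (by simpa using hb2) hden
    exact this hg2.symm
  · rw [Polynomial.map_mul, Polynomial.map_mul, hg1, hg2]
    have hx := RatFunc.num_div_denom x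
    have hx2 : x * algebraMap K[X] (RatFunc K) (RatFunc.denom x) =
        algebraMap K[X] (RatFunc K) (RatFunc.num x) := by
      rw [← eq_div_iff hden', hx]
    simp only [map_mul, Polynomial.map_C]
    rw [← hx2]
    ring

theorem pts {O K R : Type} [CommRing O] [IsDomain O] [Field K] [Algebra O K] [IsFractionRing O K]
    [CommRing R] (ι : O →+* R) (hι : Function.Injective ι) (A B : O[X])
    (h : H94.AA.NoPt (A.map ι) (B.map ι)) :
    ∀ x y : RatFunc K, y ^ 2 = x *
      (x - algebraMap K[X] (RatFunc K) (A.map (algebraMap O K))) *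
      (x - algebraMap K[X] (RatFunc K) (B.map (algebraMap O K))) → y = 0 := by
  intro x y hxy
  obtain ⟨E, hE⟩ : ∃ E : O[X] →+* RatFunc K,
      ∀ f, algebraMap K[X] (RatFunc K) (f.map (algebraMap O K)) = E f :=
    ⟨(algebraMap K[X] (RatFunc K)).comp (Polynomial.mapRingHom (algebraMap O K)), fun f => rfl⟩
  have hEinj : ∀ f, E f = 0 → f = 0 := by
    intro f hf
    rw [← hE] at hf
    have h1 := (map_eq_zero_iff _ (IsFractionRing.injective K[X] (RatFunc K))).mp hf
    have h2 : Function.Injective (Polynomial.map (algebraMap O K)) :=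
      Polynomial.map_injective _ (IsFractionRing.injective O K)
    exact h2 (by rw [h1, Polynomial.map_zero])
  obtain ⟨nx, dx, hdx, hx⟩ := frac (O := O) x
  obtain ⟨ny, dy, hdy, hy⟩ := frac (O := O) y
  rw [hE, hE] at hx hy hxy
  have hdx' : E dx ≠ 0 := fun h => hdx (hEinj _ h)
  have hdy' : E dy ≠ 0 := fun h => hdy (hEinj _ h)
  have hxe : x = E nx / E dx := by
    rw [eq_div_iff hdx']
    exact hx
  have hye : y = E ny / E dy := by
    rw [eq_div_iff hdy']
    exact hy
  -- common denominator
  have key : E ((ny * dx) ^ 2 * (dx * dy) - (nx * dy) * (nx * dy - A * (dx * dy)) *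
      (nx * dy - B * (dx * dy))) = 0 := by
    simp only [map_sub, map_mul, map_pow]
    rw [hxe, hye] at hxy
    field_simp at hxy
    linear_combination (E dy) * hxy
  have key2 := hEinj _ key
  have key3 : (ny * dx) ^ 2 * (dx * dy) = (nx * dy) * (nx * dy - A * (dx * dy)) *
      (nx * dy - B * (dx * dy)) := sub_eq_zero.mp key2
  obtain ⟨c, hc⟩ : ∃ c, c = dx * dy := ⟨_, rfl⟩
  have hc0 : c ≠ 0 := by
    rw [hc]
    exact mul_ne_zero hdx hdy
  have hinj : Function.Injective (Polynomial.map ι) :=
    Polynomial.map_injective _ hι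
  have hYZ := h ((nx * dy * c).map ι)
    ((ny * dx * c ^ 2).map ι) (c.map ι)
    (by
      intro h0
      apply hc0
      apply hinj
      rw [h0, Polynomial.map_zero])
    (by
      rw [← Polynomial.map_pow, ← Polynomial.map_pow, ← Polynomial.map_mul, ← Polynomial.map_mul,
        ← Polynomial.map_sub, ← Polynomial.map_sub, ← Polynomial.map_mul, ← Polynomial.map_mul]
      congr 1
      rw [← hc] at key3
      linear_combination c ^ 3 * key3)
  have hb : ny * dx * c ^ 2 = 0 := by
    apply hinj
    rw [hYZ, Polynomial.map_zero]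
  have hny : ny = 0 := by
    rcases mul_eq_zero.mp hb with h1 | h1
    · rcases mul_eq_zero.mp h1 with h2 | h2
      · exact h2
      · exact absurd h2 hdx
    · exact absurd h1 (pow_ne_zero 2 hc0)
  rw [hye, hny, map_zero, zero_div]

end Pool.Agent.H94.AB
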